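import Pool.Agent.Helper717.LT.One

set_option autoImplicit false

open MeasureTheory Set Filter Topology Real

namespace Pool.Agent.TH233.LTP

open LTd Pool.Helper490.Sech

/-- The hyperbolic secant. -/
noncomputable def f (x : ℝ) : ℝ := (cosh x)⁻¹

/-- Its derivative. -/
noncomputable def f' (x : ℝ) : ℝ := -sinh x / cosh x ^ 2

theorem f_deriv (x : ℝ) : HasDerivAt f (f' x) x := (hasDerivAt_cosh x).inv (cosh_pos x).ne'

theorem f_cont : Continuous f := continuous_iff_continuousAt.2 fun x => (f_deriv x).continuousAt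

theorem f'_cont : Continuous f' := by
  unfold f'
  have : ∀ x, cosh x ^ 2 ≠ 0 := fun x => pow_ne_zero 2 (cosh_pos x).ne'
  exact (by fun_prop : Continuous fun x => -sinh x).div (by fun_prop) this

theorem f_pos (x : ℝ) : 0 < f x := inv_pos.2 (cosh_pos x)

theorem f_le (x : ℝ) : f x ≤ 1 := inv_le_one_of_one_le₀ (one_le_cosh x)

theorem f'_sq (x : ℝ) : f' x ^ 2 = f x ^ 2 - f x ^ 4 := by
  have h4 := cosh_pos x
  have h5 : sinh x ^ 2 = cosh x ^ 2 - 1 := by have := cosh_sq x; linarith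
  unfold f' f
  rw [div_pow, neg_sq, h5]
  field_simp

theorem int_pow (k : ℕ) (hk : 1 ≤ k) : Integrable (fun x => f x ^ k) := by
  refine int_sech.mono' (f_cont.pow k).aestronglyMeasurable (Eventually.of_forall fun x => ?_)
  have h2 := f_pos x
  rw [Real.norm_eq_abs, abs_of_pos (by positivity)]
  calc f x ^ k ≤ f x ^ 1 := pow_le_pow_of_le_one h2.le (f_le x) hk
    _ = (cosh x)⁻¹ := pow_one _

/-- The hyperbolic tangent. -/
noncomputable def T (x : ℝ) : ℝ := sinh x * (cosh x)⁻¹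

theorem T_sq (x : ℝ) : T x ^ 2 = 1 - f x ^ 2 := by
  have h4 := cosh_pos x
  have h5 : sinh x ^ 2 = cosh x ^ 2 - 1 := by have := cosh_sq x; linarith
  unfold T f
  rw [mul_pow, h5]
  field_simp

theorem T_deriv (x : ℝ) : HasDerivAt T (f x ^ 2) x := by
  have h4 := cosh_pos x
  have h := (hasDerivAt_sinh x).mul (f_deriv x)
  refine h.congr_deriv ?_
  have h5 : sinh x ^ 2 = cosh x ^ 2 - 1 := by have := cosh_sq x; linarith
  have e : cosh x * f x + sinh x * f' x = 1 - sinh x ^ 2 / cosh x ^ 2 := by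
    unfold f f'
    field_simp
    ring
  rw [e, h5]
  unfold f
  field_simp
  ring

theorem T_top : Tendsto T atTop (𝓝 1) := by
  have h1 : Tendsto (fun x => (cosh x)⁻¹) atTop (𝓝 0) := by
    have hc : Tendsto cosh atTop atTop :=
      tendsto_atTop_mono (fun x => (sinh_lt_cosh x).le) tendsto_sinh_top
    exact hc.inv_tendsto_atTop
  have h2 : Tendsto (fun x => 1 - Real.exp (-x) * (cosh x)⁻¹) atTop (𝓝 (1 - 0 * 0)) :=
    tendsto_const_nhds.sub (tendsto_exp_neg_atTop_nhds_zero.mul h1)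
  rw [mul_zero, sub_zero] at h2
  refine h2.congr fun x => ?_
  have h4 := cosh_pos x
  rw [← cosh_sub_sinh]
  unfold T
  field_simp
  ring

theorem T_bot : Tendsto T atBot (𝓝 (-1)) := by
  have h := (T_top.comp tendsto_neg_atBot_atTop).neg
  refine h.congr fun x => ?_
  show -(T (-x)) = T x
  unfold T
  rw [sinh_neg, cosh_neg]
  ring

theorem integral_f2 : ∫ x, f x ^ 2 = 2 := by
  rw [integral_of_hasDerivAt_of_tendsto T_deriv (int_pow 2 (by norm_num)) T_bot T_top]
  norm_num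

theorem T3_deriv (x : ℝ) : HasDerivAt (fun x => T x - T x ^ 3 / 3) (f x ^ 4) x := by
  have h := (T_deriv x).sub (((T_deriv x).pow 3).div_const 3)
  refine h.congr_deriv ?_
  have h2 := T_sq x
  have e : f x ^ 2 - ((3:ℕ) * T x ^ (3 - 1) * f x ^ 2) / 3 = f x ^ 2 * (1 - T x ^ 2) := by
    push_cast
    ring
  rw [e, h2]
  ring

theorem integral_f4 : ∫ x, f x ^ 4 = 4 / 3 := by
  have hT : Tendsto (fun x => T x - T x ^ 3 / 3) atTop (𝓝 (1 - 1 ^ 3 / 3)) :=
    T_top.sub ((T_top.pow 3).div_const 3)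
  have hB : Tendsto (fun x => T x - T x ^ 3 / 3) atBot (𝓝 (-1 - (-1) ^ 3 / 3)) :=
    T_bot.sub ((T_bot.pow 3).div_const 3)
  rw [integral_of_hasDerivAt_of_tendsto T3_deriv (int_pow 4 (by norm_num)) hB hT]
  norm_num

theorem integral_f'2 : ∫ x, f' x ^ 2 = 2 / 3 := by
  simp only [f'_sq]
  rw [integral_sub (int_pow 2 (by norm_num)) (int_pow 4 (by norm_num)), integral_f2, integral_f4]
  norm_num

/-- The hyperbolic secant as a complex function, with the norm one. -/
noncomputable def S (x : Fin 1 → ℝ) : ℂ := ((√2)⁻¹ * f (x 0) : ℝ)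

/-- Its derivative. -/
noncomputable def S' (_ : Fin 1) (x : Fin 1 → ℝ) : ℂ := ((√2)⁻¹ * f' (x 0) : ℝ)

theorem norm_S (x : Fin 1 → ℝ) : ‖S x‖ ^ 2 = f (x 0) ^ 2 / 2 := by
  rw [S, Complex.norm_real, Real.norm_eq_abs, sq_abs, mul_pow, inv_pow,
    Real.sq_sqrt (by norm_num)]
  ring

theorem norm_S' (k : Fin 1) (x : Fin 1 → ℝ) : ‖S' k x‖ ^ 2 = f' (x 0) ^ 2 / 2 := by
  rw [S', Complex.norm_real, Real.norm_eq_abs, sq_abs, mul_pow, inv_pow,
    Real.sq_sqrt (by norm_num)]
  ring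

theorem int_S : ∫ x, ‖S x‖ ^ 2 = 1 := by
  simp only [norm_S]
  rw [int_fin1 (fun t => f t ^ 2 / 2), integral_div, integral_f2]
  norm_num

theorem int_S4 : ∫ x, (‖S x‖ ^ 2) ^ 2 = 1 / 3 := by
  have h : ∀ x : Fin 1 → ℝ, (‖S x‖ ^ 2) ^ 2 = f (x 0) ^ 4 / 4 := by
    intro x
    rw [norm_S]
    ring
  simp only [h]
  rw [int_fin1 (fun t => f t ^ 4 / 4), integral_div, integral_f4]
  norm_num

theorem int_S' (k : Fin 1) : ∫ x, ‖S' k x‖ ^ 2 = 1 / 3 := by
  simp only [norm_S']
  rw [int_fin1 (fun t => f' t ^ 2 / 2), integral_div, integral_f'2]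
  norm_num

theorem S_wgrad : WGradC S S' := by
  have hf : ∀ x, HasDerivAt (fun x => (√2)⁻¹ * f x) ((√2)⁻¹ * f' x) x :=
    fun x => (f_deriv x).const_mul _
  refine ⟨?_, ?_, ?_⟩
  · have hc : Continuous S :=
      Complex.continuous_ofReal.comp ((f_cont.comp (continuous_apply 0)).const_mul _)
    rw [memLp_two_iff_integrable_sq_norm hc.aestronglyMeasurable]
    simp only [norm_S]
    exact mp1.integrable_comp_of_integrable ((int_pow 2 (by norm_num)).div_const 2)
  · intro k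
    have hc : Continuous (S' k) :=
      Complex.continuous_ofReal.comp ((f'_cont.comp (continuous_apply 0)).const_mul _)
    rw [memLp_two_iff_integrable_sq_norm hc.aestronglyMeasurable]
    simp only [norm_S']
    have h1 : Integrable (fun x => f' x ^ 2) := by
      simp only [f'_sq]
      exact (int_pow 2 (by norm_num)).sub (int_pow 4 (by norm_num))
    exact mp1.integrable_comp_of_integrable (h1.div_const 2)
  · intro k φ hφ hs
    exact parts_fin1 _ _ hf (f'_cont.const_mul _) k φ hφ hs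

end Pool.Agent.TH233.LTP
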