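import Pool.Agent.TH233.LTP.Gram
import Pool.Agent.Helper717.LT.P_const_final
import Pool.Agent.Helper717.LT.P_split_complex
import Pool.Agent.Helper717.LT.P_gram_complex

set_option autoImplicit false

open MeasureTheory Set Filter Topology Real
open scoped Matrix

namespace Pool.Agent.TH233.LTP

open LTd

theorem pp_eq (m : ℕ) : pp (3 / 2 + m / 2) = 1 + 2 / ((m : ℝ) + 1) := by
  unfold pp
  have h1 : (m : ℝ) + 1 ≠ 0 := by positivity
  have h2 : (3 / 2 + (m : ℝ) / 2 - 1) = ((m : ℝ) + 1) / 2 := by ring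
  rw [h2]
  field_simp
  ring

/-- Complex valued orthonormal families in `H¹(ℝ^m)`. -/
theorem C_gram (m N : ℕ) {a : ℝ} (ha : 0 < a) (u : Fin N → (Fin m → ℝ) → ℂ)
    (g : Fin N → Fin m → (Fin m → ℝ) → ℂ) (hu : ∀ i, WGradC (u i) (g i))
    (ho : ∀ i j, ∫ x, (starRingEnd ℂ) (u i x) * u j x = if i = j then 1 else 0) :
    Integrable (fun x => (∑ i, ‖u i x‖ ^ 2) ^ (1 + 2 / ((m:ℝ) + 1))) ∧
    bco (m / 2) (3 / 2) a * ∫ x, (∑ i, ‖u i x‖ ^ 2) ^ (1 + 2 / ((m:ℝ) + 1)) ≤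
      (∑ i, ∑ k, ∫ x, ‖g i k x‖ ^ 2) + a * N := by
  have hsq : ∀ z : ℂ, ‖z‖ ^ 2 = z.re ^ 2 + z.im ^ 2 := by
    intro z
    rw [Complex.sq_norm, Complex.normSq_apply]; ring
  let F : Fin (N + N) → (Fin m → ℝ) → ℝ :=
    Fin.append (fun i x => (u i x).re) (fun i x => (u i x).im)
  let G : Fin (N + N) → Fin m → (Fin m → ℝ) → ℝ :=
    Fin.append (fun i k x => (g i k x).re) (fun i k x => (g i k x).im)
  have hFl : ∀ i, F (Fin.castAdd N i) = fun x => (u i x).re := fun i => Fin.append_left _ _ i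
  have hFr : ∀ i, F (Fin.natAdd N i) = fun x => (u i x).im := fun i => Fin.append_right _ _ i
  have hGl : ∀ i, G (Fin.castAdd N i) = fun k x => (g i k x).re := fun i => Fin.append_left _ _ i
  have hGr : ∀ i, G (Fin.natAdd N i) = fun k x => (g i k x).im := fun i => Fin.append_right _ _ i
  have hW : ∀ i, WGrad (F i) (G i) := by
    intro i
    refine Fin.addCases (fun i => ?_) (fun i => ?_) i
    · rw [hFl, hGl]
      exact (split_complex (hu i)).1
    · rw [hFr, hGr]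
      exact (split_complex (hu i)).2
  have hG : ∀ v : Fin (N + N) → ℝ, ∫ x, (∑ i, v i * F i x) ^ 2 ≤ ∑ i, v i ^ 2 := by
    intro v
    have h1 := gram_complex u (fun i => (hu i).f2) ho (fun i => v (Fin.castAdd N i))
      (fun i => v (Fin.natAdd N i))
    have h2 : ∀ x, ∑ i, v i * F i x = ∑ i : Fin N, (v (Fin.castAdd N i) * (u i x).re +
        v (Fin.natAdd N i) * (u i x).im) := by
      intro x
      rw [Fin.sum_univ_add, Finset.sum_add_distrib]
      simp only [hFl, hFr]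
    have h3 : ∑ i, v i ^ 2 = ∑ i : Fin N, (v (Fin.castAdd N i) ^ 2 + v (Fin.natAdd N i) ^ 2) := by
      rw [Fin.sum_univ_add, Finset.sum_add_distrib]
    simp only [h2]
    rw [h3]
    exact h1
  have hH := H_gram m (N + N) ha F G hW hG
  have hFs : ∀ x, ∑ i, F i x ^ 2 = ∑ i, ‖u i x‖ ^ 2 := by
    intro x
    rw [Fin.sum_univ_add, ← Finset.sum_add_distrib]
    simp only [hFl, hFr, hsq]
  have hGs : ∀ x, ∑ j, ∑ i, G i j x ^ 2 = ∑ i, ∑ j, ‖g i j x‖ ^ 2 := by
    intro x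
    rw [Finset.sum_comm, Fin.sum_univ_add, ← Finset.sum_add_distrib]
    refine Finset.sum_congr rfl fun i _ => ?_
    rw [← Finset.sum_add_distrib]
    simp only [hGl, hGr, hsq]
  have hI : ∀ i k, Integrable (fun x => ‖g i k x‖ ^ 2) := by
    intro i k
    have := (hu i).g2 k
    exact this.integrable_norm_pow two_ne_zero
  have hint : ∫ x, ∑ i, ∑ j, ‖g i j x‖ ^ 2 = ∑ i, ∑ k, ∫ x, ‖g i k x‖ ^ 2 := by
    rw [integral_finsetSum _ (fun i _ => integrable_finsetSum _ (fun k _ => hI i k))]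
    refine Finset.sum_congr rfl fun i _ => ?_
    rw [integral_finsetSum _ (fun k _ => hI i k)]
  have htr : ∑ i, ∫ x, F i x ^ 2 = N := by
    rw [Fin.sum_univ_add, ← Finset.sum_add_distrib]
    have h1 : ∀ i : Fin N, (∫ x, F (Fin.castAdd N i) x ^ 2) + (∫ x, F (Fin.natAdd N i) x ^ 2) = 1 := by
      intro i
      simp only [hFl, hFr]
      have I1 : Integrable (fun x => (u i x).re ^ 2) volume := (hu i).f2.re.integrable_sq
      have I2 : Integrable (fun x => (u i x).im ^ 2) volume := (hu i).f2.im.integrable_sq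
      rw [← integral_add I1 I2]
      have h2 := ho i i
      rw [if_pos rfl] at h2
      have h3 : ∀ x, (starRingEnd ℂ) (u i x) * u i x = (((u i x).re ^ 2 + (u i x).im ^ 2 : ℝ) : ℂ) := by
        intro x
        rw [← hsq, Complex.conj_mul']
        push_cast
        rfl
      simp only [h3] at h2
      rw [integral_complex_ofReal] at h2
      exact_mod_cast h2
    rw [Finset.sum_congr rfl fun i _ => h1 i]
    simp
  simp only [hFs, hGs, pp_eq] at hH
  rw [htr, hint] at hH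
  exact hH

theorem bco_scale (m : ℕ) {a : ℝ} (ha : 0 < a) :
    bco (m / 2) (3 / 2) a = bco (m / 2) (3 / 2) 1 * a ^ (1 / ((m:ℝ) + 1)) := by
  have hJ : 0 ≤ JJ ((m:ℝ) / 2) (3 / 2) := by
    unfold JJ cc
    have h1 : 0 < Gamma (3 / 2 + 1 + (m:ℝ) / 2) := Real.Gamma_pos_of_pos (by positivity)
    have h2 : 0 < Gamma ((3:ℝ) / 2 + 1) := Real.Gamma_pos_of_pos (by positivity)
    have h3 : 0 ≤ (3 / 2 + (m:ℝ) / 2 - 1) := by
      have : (0:ℝ) ≤ m := Nat.cast_nonneg m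
      linarith
    have h4 : (0:ℝ) ≤ 3 / 2 - 1 := by norm_num
    positivity
  unfold bco
  rw [Real.one_rpow, mul_one, Real.mul_rpow hJ (by positivity), ← Real.rpow_mul ha.le]
  congr 2
  have : (m:ℝ) + 1 ≠ 0 := by positivity
  have h2 : (3 / 2 + (m : ℝ) / 2 - 1) = ((m : ℝ) + 1) / 2 := by ring
  rw [h2]
  field_simp
  norm_num

/-- The constant of the block inequality in dimension `m`. -/
noncomputable def cb (m : ℕ) : ℝ := (bco (m / 2) (3 / 2) 1 / (m + 1)) ^ (((m:ℝ) + 1) / m)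

theorem cb_nonneg (m : ℕ) : 0 ≤ cb m := by
  unfold cb
  have : 0 < bco ((m:ℝ) / 2) (3 / 2) 1 := bco_pos (by positivity) (by norm_num) one_pos
  positivity

/-- Optimisation in the parameter. -/
theorem optim {m : ℕ} (hm : 1 ≤ m) {N : ℝ} (hN : 0 < N) {b R T : ℝ} (hb : 0 ≤ b) (hR : 0 ≤ R)
    (hT : 0 ≤ T) (h : ∀ a : ℝ, 0 < a → b * a ^ (1 / ((m:ℝ) + 1)) * R ≤ T + a * N) :
    m * N * ((b / (m + 1)) ^ (((m:ℝ) + 1) / m) * (R / N) ^ (((m:ℝ) + 1) / m)) ≤ T := by
  have hm0 : (0:ℝ) < m := by exact_mod_cast hm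
  have hm1 : (0:ℝ) < (m:ℝ) + 1 := by positivity
  rw [← Real.mul_rpow (by positivity) (by positivity)]
  set β : ℝ := b / (m + 1) * (R / N) with hβ
  have hβ0 : 0 ≤ β := by positivity
  rcases hβ0.eq_or_lt with h0 | h0
  · rw [← h0, Real.zero_rpow (by positivity), mul_zero]
    exact hT
  · have ha : 0 < β ^ (((m:ℝ) + 1) / m) := Real.rpow_pos_of_pos h0 _
    have h1 := h _ ha
    rw [← Real.rpow_mul hβ0] at h1
    have e1 : (((m:ℝ) + 1) / m * (1 / ((m:ℝ) + 1))) = 1 / m := by field_simp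
    rw [e1] at h1
    have e2 : b * R = (m + 1) * N * β := by
      rw [hβ]; field_simp
    have e3 : β ^ (((m:ℝ) + 1) / m) = β * β ^ (1 / (m:ℝ)) := by
      rw [← Real.rpow_one_add' hβ0 (by positivity)]
      congr 1
      field_simp
    have e4 : b * β ^ (1 / (m:ℝ)) * R = (m + 1) * N * β ^ (((m:ℝ) + 1) / m) := by
      rw [e3]
      calc b * β ^ (1 / (m:ℝ)) * R = (b * R) * β ^ (1 / (m:ℝ)) := by ring
        _ = _ := by rw [e2]; ring
    rw [e4] at h1
    linarith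

theorem int_norm_sq {m N : ℕ} (u : Fin N → (Fin m → ℝ) → ℂ)
    (ho : ∀ i j, ∫ x, (starRingEnd ℂ) (u i x) * u j x = if i = j then 1 else 0) (i : Fin N) :
    ∫ x, ‖u i x‖ ^ 2 = 1 := by
  have h2 := ho i i
  rw [if_pos rfl] at h2
  have h3 : ∀ x, (starRingEnd ℂ) (u i x) * u i x = ((‖u i x‖ ^ 2 : ℝ) : ℂ) := by
    intro x
    rw [Complex.conj_mul']
    push_cast
    rfl
  simp only [h3] at h2
  rw [integral_complex_ofReal] at h2
  exact_mod_cast h2

theorem block {m d N : ℕ} (hm : 1 ≤ m) (hd : m + 1 ≤ d) (u : Fin N → (Fin m → ℝ) → ℂ)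
    (g : Fin N → Fin m → (Fin m → ℝ) → ℂ) (hu : ∀ i, WGradC (u i) (g i))
    (ho : ∀ i j, ∫ x, (starRingEnd ℂ) (u i x) * u j x = if i = j then 1 else 0) :
    Integrable (fun x => (∑ i, ‖u i x‖ ^ 2) ^ (1 + 2 / (d:ℝ))) ∧
    m * N * (cb m * ((∫ x, (∑ i, ‖u i x‖ ^ 2) ^ (1 + 2 / (d:ℝ))) / N) ^ ((d:ℝ) / m)) ≤
      ∑ i, ∑ k, ∫ x, ‖g i k x‖ ^ 2 := by
  have hm0 : (0:ℝ) < m := by exact_mod_cast hm
  have hd0 : (0:ℝ) < d := by
    have : 0 < d := by omega
    exact_mod_cast this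
  have hd1 : (m:ℝ) + 1 ≤ d := by exact_mod_cast hd
  set ρ : (Fin m → ℝ) → ℝ := fun x => ∑ i, ‖u i x‖ ^ 2 with hρ
  have hρ0 : ∀ x, 0 ≤ ρ x := fun x => Finset.sum_nonneg fun i _ => by positivity
  have hρi : Integrable ρ := integrable_finsetSum _ fun i _ =>
    (hu i).f2.integrable_norm_pow two_ne_zero
  have hρN : ∫ x, ρ x = N := by
    rw [hρ, integral_finsetSum _ fun i _ => (hu i).f2.integrable_norm_pow two_ne_zero]
    rw [Finset.sum_congr rfl fun i _ => int_norm_sq u ho i]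
    simp
  set p : ℝ := 1 + 2 / ((m:ℝ) + 1) with hp
  set q : ℝ := 1 + 2 / (d:ℝ) with hq
  have hp0 : 0 ≤ p := by positivity
  have hq0 : 0 ≤ q := by positivity
  set θ : ℝ := ((m:ℝ) + 1) / d with hθ
  have hθ0 : 0 ≤ θ := by positivity
  have hθ1 : θ ≤ 1 := by
    rw [hθ, div_le_one (by positivity)]
    exact hd1
  have hexp : (1 - θ) + p * θ = q := by
    rw [hp, hθ, hq]
    field_simp
    ring
  have hC1 := C_gram m N one_pos u g hu ho
  have hRi : Integrable (fun x => ρ x ^ p) := hC1.1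
  set R : ℝ := ∫ x, ρ x ^ p with hR
  have hR0 : 0 ≤ R := integral_nonneg fun x => Real.rpow_nonneg (hρ0 x) _
  have hmeas : AEStronglyMeasurable (fun x => ρ x ^ q) volume :=
    (hρi.aestronglyMeasurable.aemeasurable.pow_const q).aestronglyMeasurable
  have hN0 : (0:ℝ) ≤ N := Nat.cast_nonneg N
  have hH : ∫⁻ x, ENNReal.ofReal (ρ x ^ q) ≤ ENNReal.ofReal ((N:ℝ) ^ (1 - θ) * R ^ θ) := by
    have h1 : ∀ x, ENNReal.ofReal (ρ x ^ q) =
        ENNReal.ofReal (ρ x) ^ (1 - θ) * ENNReal.ofReal (ρ x ^ p) ^ θ := by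
      intro x
      rw [ENNReal.ofReal_rpow_of_nonneg (hρ0 x) (by linarith),
        ENNReal.ofReal_rpow_of_nonneg (Real.rpow_nonneg (hρ0 x) _) hθ0,
        ← ENNReal.ofReal_mul (Real.rpow_nonneg (hρ0 x) _), ← Real.rpow_mul (hρ0 x),
        ← Real.rpow_add_of_nonneg (hρ0 x) (by linarith) (by positivity), hexp]
    simp only [h1]
    refine (ENNReal.lintegral_mul_norm_pow_le
      (hρi.aestronglyMeasurable.aemeasurable.ennreal_ofReal)
      (hRi.aestronglyMeasurable.aemeasurable.ennreal_ofReal)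
      (by linarith) hθ0 (by ring)).trans_eq ?_
    rw [← ofReal_integral_eq_lintegral_ofReal hρi (Eventually.of_forall hρ0),
      ← ofReal_integral_eq_lintegral_ofReal hRi (Eventually.of_forall fun x =>
        Real.rpow_nonneg (hρ0 x) _), hρN,
      ENNReal.ofReal_rpow_of_nonneg hN0 (by linarith),
      ENNReal.ofReal_rpow_of_nonneg hR0 hθ0, ← ENNReal.ofReal_mul (Real.rpow_nonneg hN0 _)]
  have hI : Integrable (fun x => ρ x ^ q) := by
    refine ⟨hmeas, ?_⟩
    rw [hasFiniteIntegral_iff_ofReal (Eventually.of_forall fun x => Real.rpow_nonneg (hρ0 x) _)]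
    exact lt_of_le_of_lt hH ENNReal.ofReal_lt_top
  refine ⟨hI, ?_⟩
  set S : ℝ := ∫ x, ρ x ^ q with hS
  have hS0 : 0 ≤ S := integral_nonneg fun x => Real.rpow_nonneg (hρ0 x) _
  have hSle : S ≤ (N:ℝ) ^ (1 - θ) * R ^ θ := by
    rw [hS, integral_eq_lintegral_of_nonneg_ae (Eventually.of_forall fun x =>
      Real.rpow_nonneg (hρ0 x) _) hmeas]
    exact ENNReal.toReal_le_of_le_ofReal (by positivity) hH
  have hT0 : 0 ≤ ∑ i, ∑ k, ∫ x, ‖g i k x‖ ^ 2 := Finset.sum_nonneg fun i _ =>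
    Finset.sum_nonneg fun k _ => integral_nonneg fun x => by positivity
  rcases Nat.eq_zero_or_pos N with h0 | hNpos
  · have : (N:ℝ) = 0 := by exact_mod_cast h0
    rw [this]
    simpa using hT0
  have hNp : (0:ℝ) < N := by exact_mod_cast hNpos
  have hb : 0 < bco ((m:ℝ) / 2) (3 / 2) 1 := bco_pos (by positivity) (by norm_num) one_pos
  have hopt := optim hm hNp hb.le hR0 hT0 (fun a ha => by
    have h1 := (C_gram m N ha u g hu ho).2
    rw [bco_scale m ha] at h1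
    linarith)
  have hX : (S / N) ^ ((d:ℝ) / m) ≤ (R / N) ^ (((m:ℝ) + 1) / m) := by
    have h1 : S / N ≤ (R / N) ^ θ := by
      rw [div_le_iff₀ hNp, Real.div_rpow hR0 hN0]
      refine hSle.trans_eq ?_
      rw [Real.rpow_sub hNp, Real.rpow_one]
      field_simp
    calc (S / N) ^ ((d:ℝ) / m) ≤ ((R / N) ^ θ) ^ ((d:ℝ) / m) :=
          Real.rpow_le_rpow (by positivity) h1 (by positivity)
      _ = (R / N) ^ (((m:ℝ) + 1) / m) := by
        rw [← Real.rpow_mul (by positivity)]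
        congr 1
        rw [hθ]
        field_simp
  have hcb : cb m = (bco ((m:ℝ) / 2) (3 / 2) 1 / (m + 1)) ^ (((m:ℝ) + 1) / m) := rfl
  rw [← hcb] at hopt
  refine le_trans ?_ hopt
  have := cb_nonneg m
  gcongr

end Pool.Agent.TH233.LTP
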