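import Pool.Agent.TH233.LTP.Const

set_option autoImplicit false

open MeasureTheory Set Filter Topology Real

namespace Pool.Agent.TH233.LTP

/-- `(4π/(j+2))^(j/2) Γ(1+j/2)`; the semiclassical constant in dimension `j` is
`j * ph j ^ (2/j)`. -/
noncomputable def ph (j : ℕ) : ℝ := (4 * π / ((j:ℝ) + 2)) ^ ((j:ℝ) / 2) * Gamma (1 + (j:ℝ) / 2)

theorem ph_eq (j : ℕ) : ph j = PH (1 + (j:ℝ) / 2) := by
  unfold ph PH
  have h1 : 4 * π / ((j:ℝ) + 2) = 2 * π / (1 + (j:ℝ) / 2) := by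
    have : (j:ℝ) + 2 ≠ 0 := by positivity
    have : 1 + (j:ℝ) / 2 ≠ 0 := by positivity
    field_simp
    ring
  rw [h1]
  congr 2
  ring

theorem ph_pos (j : ℕ) : 0 < ph j := by
  rw [ph_eq]
  exact PH_pos (by positivity)

theorem ph_lc {j : ℕ} (hj : 1 ≤ j) : ph j * ph (j + 2) ≤ ph (j + 1) ^ 2 := by
  have hj1 : (1:ℝ) ≤ j := by exact_mod_cast hj
  have h := PH_logconcave (x := 1 + (j:ℝ) / 2) (by linarith)
  rw [ph_eq, ph_eq, ph_eq]
  have e1 : 1 + ((j + 2 : ℕ) : ℝ) / 2 = 1 + (j:ℝ) / 2 + 1 := by push_cast; ring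
  have e2 : 1 + ((j + 1 : ℕ) : ℝ) / 2 = 1 + (j:ℝ) / 2 + 1 / 2 := by push_cast; ring
  rw [e1, e2]
  exact h

theorem ph_ratio {a : ℕ} (ha : 1 ≤ a) (k : ℕ) :
    ph (a + k + 1) * ph a ≤ ph (a + k) * ph (a + 1) := by
  induction k with
  | zero => exact (mul_comm _ _).le
  | succ k ih =>
    have h1 := ph_lc (j := a + k) (by omega)
    have p0 := ph_pos a
    have p1 := ph_pos (a + k)
    have p2 := ph_pos (a + k + 1)
    have p3 := ph_pos (a + k + 2)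
    have p4 := ph_pos (a + 1)
    show ph (a + k + 2) * ph a ≤ ph (a + k + 1) * ph (a + 1)
    have h2 : (ph (a + k + 2) * ph a) * ph (a + k) ≤ (ph (a + k + 1) * ph (a + 1)) * ph (a + k) :=
      calc (ph (a + k + 2) * ph a) * ph (a + k) = (ph (a + k) * ph (a + k + 2)) * ph a := by ring
        _ ≤ ph (a + k + 1) ^ 2 * ph a := mul_le_mul_of_nonneg_right h1 p0.le
        _ = ph (a + k + 1) * (ph (a + k + 1) * ph a) := by ring
        _ ≤ ph (a + k + 1) * (ph (a + k) * ph (a + 1)) := mul_le_mul_of_nonneg_left ih p2.le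
        _ = _ := by ring
    exact le_of_mul_le_mul_right h2 p1

theorem ph_maj {a : ℕ} (ha : 1 ≤ a) (c e : ℕ) :
    ph a * ph (a + c + e) ≤ ph (a + c) * ph (a + e) := by
  induction c with
  | zero => exact le_rfl
  | succ c ih =>
    have h1 := ph_ratio (a := a + c) (by omega) e
    have p0 := ph_pos a
    have p1 := ph_pos (a + c)
    have p2 := ph_pos (a + c + 1)
    have e1 : a + (c + 1) + e = a + c + e + 1 := by ring
    rw [e1]
    show ph a * ph (a + c + e + 1) ≤ ph (a + c + 1) * ph (a + e)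
    have h2 : (ph a * ph (a + c + e + 1)) * ph (a + c) ≤
        (ph (a + c + 1) * ph (a + e)) * ph (a + c) :=
      calc (ph a * ph (a + c + e + 1)) * ph (a + c)
          = ph a * (ph (a + c + e + 1) * ph (a + c)) := by ring
        _ ≤ ph a * (ph (a + c + e) * ph (a + c + 1)) := mul_le_mul_of_nonneg_left h1 p0.le
        _ = (ph a * ph (a + c + e)) * ph (a + c + 1) := by ring
        _ ≤ (ph (a + c) * ph (a + e)) * ph (a + c + 1) := mul_le_mul_of_nonneg_right ih p2.le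
        _ = _ := by ring
    exact le_of_mul_le_mul_right h2 p1

/-- Enlarging a block. -/
theorem step {P Q : ℝ} (hP : 0 ≤ P) (x D t : ℕ) (hx : 1 ≤ x) (hD : x ≤ D)
    (h : P * ph D ≤ Q * ph x) : P * ph (D + t) ≤ Q * ph (x + t) := by
  obtain ⟨e, rfl⟩ := Nat.exists_eq_add_of_le hD
  have h1 := ph_maj hx t e
  have p0 := ph_pos x
  have p1 := ph_pos (x + t)
  have e1 : x + e + t = x + t + e := by ring
  rw [e1]
  have h2 : (P * ph (x + t + e)) * ph x ≤ (Q * ph (x + t)) * ph x :=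
    calc (P * ph (x + t + e)) * ph x = P * (ph x * ph (x + t + e)) := by ring
      _ ≤ P * (ph (x + t) * ph (x + e)) := mul_le_mul_of_nonneg_left h1 hP
      _ = (P * ph (x + e)) * ph (x + t) := by ring
      _ ≤ (Q * ph x) * ph (x + t) := mul_le_mul_of_nonneg_right h p1.le
      _ = _ := by ring
  exact le_of_mul_le_mul_right h2 p0

/-- Adding a block. -/
theorem addBlock {P Q : ℝ} (hP : 0 ≤ P) {D : ℕ} (hD : 1 ≤ D) (x : ℕ) (h : P * ph D ≤ Q) :
    P * ph 1 * ph (D + x) ≤ Q * ph (x + 1) := by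
  obtain ⟨e, rfl⟩ := Nat.exists_eq_add_of_le hD
  have h1 := ph_maj (a := 1) le_rfl x e
  have e1 : 1 + e + x = 1 + x + e := by ring
  have p1 := ph_pos (x + 1)
  rw [e1]
  calc P * ph 1 * ph (1 + x + e) = P * (ph 1 * ph (1 + x + e)) := by ring
    _ ≤ P * (ph (1 + x) * ph (1 + e)) := mul_le_mul_of_nonneg_left h1 hP
    _ = (P * ph (1 + e)) * ph (x + 1) := by rw [add_comm 1 x]; ring
    _ ≤ Q * ph (x + 1) := mul_le_mul_of_nonneg_right h p1.le

theorem ph_sq (j : ℕ) : ph j ^ 2 = (4 * π / ((j:ℝ) + 2)) ^ j * Gamma (1 + (j:ℝ) / 2) ^ 2 := by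
  unfold ph
  have hb : (0:ℝ) ≤ 4 * π / ((j:ℝ) + 2) := by
    have := Real.pi_pos
    positivity
  rw [mul_pow, ← Real.rpow_natCast ((4 * π / ((j:ℝ) + 2)) ^ ((j:ℝ) / 2)) 2, ← Real.rpow_mul hb]
  have : (j:ℝ) / 2 * ((2:ℕ):ℝ) = j := by push_cast; ring
  rw [this, Real.rpow_natCast]

theorem G32 : Gamma (3 / 2 : ℝ) = √π / 2 := by
  rw [show (3 / 2 : ℝ) = 1 / 2 + 1 by norm_num, Real.Gamma_add_one (by norm_num),
    Real.Gamma_one_half_eq]
  ring

theorem G52 : Gamma (5 / 2 : ℝ) = 3 * √π / 4 := by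
  rw [show (5 / 2 : ℝ) = 3 / 2 + 1 by norm_num, Real.Gamma_add_one (by norm_num), G32]
  ring

theorem G72 : Gamma (7 / 2 : ℝ) = 15 * √π / 8 := by
  rw [show (7 / 2 : ℝ) = 5 / 2 + 1 by norm_num, Real.Gamma_add_one (by norm_num), G52]
  ring

theorem G92 : Gamma (9 / 2 : ℝ) = 105 * √π / 16 := by
  rw [show (9 / 2 : ℝ) = 7 / 2 + 1 by norm_num, Real.Gamma_add_one (by norm_num), G72]
  ring

theorem ph1 : ph 1 ^ 2 = π ^ 2 / 3 := by
  rw [ph_sq]
  have : (1 + ((1:ℕ):ℝ) / 2) = 3 / 2 := by norm_num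
  have hs : (√π / 2) ^ 2 = π / 4 := by
    rw [div_pow, Real.sq_sqrt Real.pi_pos.le]
    norm_num
  rw [this, G32, hs]
  push_cast
  ring

theorem ph2 : ph 2 = π := by
  unfold ph
  have h1 : (1 + ((2:ℕ):ℝ) / 2) = 1 + 1 := by norm_num
  have h2 : ((2:ℕ):ℝ) / 2 = 1 := by norm_num
  rw [h1, h2, Real.rpow_one, Real.Gamma_add_one one_ne_zero, Real.Gamma_one]
  push_cast
  ring

theorem ph3 : ph 3 ^ 2 = (4 * π / 5) ^ 3 * (9 * π / 16) := by
  rw [ph_sq]
  have : (1 + ((3:ℕ):ℝ) / 2) = 5 / 2 := by norm_num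
  have hs : (3 * √π / 4) ^ 2 = 9 * π / 16 := by
    rw [div_pow, mul_pow, Real.sq_sqrt Real.pi_pos.le]
    norm_num
  rw [this, G52, hs]
  push_cast
  ring

theorem ph4 : ph 4 = 8 * π ^ 2 / 9 := by
  unfold ph
  have h1 : (1 + ((4:ℕ):ℝ) / 2) = (1 + 1) + 1 := by norm_num
  have h2 : ((4:ℕ):ℝ) / 2 = ((2:ℕ):ℝ) := by norm_num
  rw [h1, h2, Real.rpow_natCast, Real.Gamma_add_one (by norm_num),
    Real.Gamma_add_one one_ne_zero, Real.Gamma_one]
  push_cast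
  ring

theorem ph5 : ph 5 ^ 2 = (4 * π / 7) ^ 5 * (225 * π / 64) := by
  rw [ph_sq]
  have : (1 + ((5:ℕ):ℝ) / 2) = 7 / 2 := by norm_num
  have hs : (15 * √π / 8) ^ 2 = 225 * π / 64 := by
    rw [div_pow, mul_pow, Real.sq_sqrt Real.pi_pos.le]
    norm_num
  rw [this, G72, hs]
  push_cast
  ring

theorem ph6 : ph 6 = 3 * π ^ 3 / 4 := by
  unfold ph
  have h1 : (1 + ((6:ℕ):ℝ) / 2) = ((1 + 1) + 1) + 1 := by norm_num
  have h2 : ((6:ℕ):ℝ) / 2 = ((3:ℕ):ℝ) := by norm_num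
  rw [h1, h2, Real.rpow_natCast, Real.Gamma_add_one (by norm_num),
    Real.Gamma_add_one (by norm_num), Real.Gamma_add_one one_ne_zero, Real.Gamma_one]
  push_cast
  ring

theorem ph7 : ph 7 ^ 2 = (4 * π / 9) ^ 7 * (11025 * π / 256) := by
  rw [ph_sq]
  have : (1 + ((7:ℕ):ℝ) / 2) = 9 / 2 := by norm_num
  have hs : (105 * √π / 16) ^ 2 = 11025 * π / 256 := by
    rw [div_pow, mul_pow, Real.sq_sqrt Real.pi_pos.le]
    norm_num
  rw [this, G92, hs]
  push_cast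
  ring

theorem pisq : π ^ 2 ≤ 9.8697 := by
  have h1 := Real.pi_lt_d4
  have h2 := Real.pi_pos
  nlinarith

theorem b33 : ph 1 ^ 2 * ph 6 ≤ ph 4 * ph 4 := by
  rw [ph1, ph6, ph4]
  have h1 := Real.pi_lt_d4
  have h2 := Real.pi_pos
  have h3 : 0 ≤ π ^ 4 * (64 / 81 - π / 4) := mul_nonneg (by positivity) (by norm_num; linarith)
  nlinarith [h3]

theorem b25 : ph 1 ^ 2 * ph 7 ≤ ph 3 * ph 6 := by
  have p7 := ph_pos 7
  have p3 := ph_pos 3
  have p6 := ph_pos 6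
  refine (pow_le_pow_iff_left₀ (by positivity) (by positivity) (n := 2) (by norm_num)).1 ?_
  rw [mul_pow, mul_pow, ph1, ph7, ph3, ph6]
  have h1 := pisq
  have h2 := Real.pi_pos
  have h3 : 0 ≤ π ^ 10 * (9.8697 - π ^ 2) := mul_nonneg (by positivity) (by linarith)
  nlinarith [h3, pow_pos h2 10]

theorem b1111 : ph 1 ^ 4 * ph 4 ≤ ph 2 ^ 4 := by
  have e : ph 1 ^ 4 = (ph 1 ^ 2) ^ 2 := by ring
  rw [e, ph1, ph4, ph2]
  have h1 := pisq
  have h2 := Real.pi_pos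
  have h3 : 0 ≤ π ^ 4 * (9.8697 - π ^ 2) := mul_nonneg (by positivity) (by linarith)
  nlinarith [h3, pow_pos h2 4]

theorem b113 : ph 1 ^ 3 * ph 5 ≤ ph 2 ^ 2 * ph 4 := by
  have p1 := ph_pos 1
  have p5 := ph_pos 5
  have p2 := ph_pos 2
  have p4 := ph_pos 4
  refine (pow_le_pow_iff_left₀ (by positivity) (by positivity) (n := 2) (by norm_num)).1 ?_
  have e : (ph 1 ^ 3 * ph 5) ^ 2 = (ph 1 ^ 2) ^ 3 * ph 5 ^ 2 := by ring
  rw [e, ph1, ph5, ph2, ph4]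
  have h1 := pisq
  have h2 := Real.pi_pos
  have h3 : 0 ≤ π ^ 8 * (9.8697 - π ^ 2) := mul_nonneg (by positivity) (by linarith)
  have h4 : 0 ≤ π ^ 8 * (9.8697 - π ^ 2) * π ^ 2 := mul_nonneg h3 (by positivity)
  nlinarith [h3, h4, pow_pos h2 8, pow_pos h2 10]

theorem b122 : ph 1 ^ 3 * ph 5 ≤ ph 2 * ph 3 * ph 3 := by
  have p1 := ph_pos 1
  have p5 := ph_pos 5
  have p2 := ph_pos 2
  have p3 := ph_pos 3
  refine (pow_le_pow_iff_left₀ (by positivity) (by positivity) (n := 2) (by norm_num)).1 ?_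
  have e : (ph 1 ^ 3 * ph 5) ^ 2 = (ph 1 ^ 2) ^ 3 * ph 5 ^ 2 := by ring
  have e' : (ph 2 * ph 3 * ph 3) ^ 2 = ph 2 ^ 2 * (ph 3 ^ 2) ^ 2 := by ring
  rw [e, e', ph1, ph5, ph2, ph3]
  have h1 := pisq
  have h2 := Real.pi_pos
  have h3 : 0 ≤ π ^ 10 * (9.8697 - π ^ 2) := mul_nonneg (by positivity) (by linarith)
  nlinarith [h3, pow_pos h2 10]

theorem good2 {a b : ℕ} (h : (3 ≤ a ∧ 3 ≤ b) ∨ (2 ≤ a ∧ 5 ≤ b) ∨ (5 ≤ a ∧ 2 ≤ b)) :
    ph 1 ^ 2 * ph (a + b) ≤ ph (a + 1) * ph (b + 1) := by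
  have hP : 0 ≤ ph 1 ^ 2 := by have := ph_pos 1; positivity
  have main : ∀ a0 b0 : ℕ, 1 ≤ a0 → 1 ≤ b0 → a0 ≤ a → b0 ≤ b →
      ph 1 ^ 2 * ph (a0 + b0) ≤ ph (b0 + 1) * ph (a0 + 1) →
      ph 1 ^ 2 * ph (a + b) ≤ ph (a + 1) * ph (b + 1) := by
    intro a0 b0 ha0 hb0 ha hb h0
    have h1 := step hP (a0 + 1) (a0 + b0) (a - a0) (by omega) (by omega) h0
    rw [show a0 + b0 + (a - a0) = a + b0 by omega, show a0 + 1 + (a - a0) = a + 1 by omega,
      mul_comm (ph (b0 + 1))] at h1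
    have h2 := step hP (b0 + 1) (a + b0) (b - b0) (by omega) (by omega) h1
    rwa [show a + b0 + (b - b0) = a + b by omega, show b0 + 1 + (b - b0) = b + 1 by omega] at h2
  rcases h with ⟨h1, h2⟩ | ⟨h1, h2⟩ | ⟨h1, h2⟩
  · exact main 3 3 (by norm_num) (by norm_num) h1 h2 b33
  · exact main 2 5 (by norm_num) (by norm_num) h1 h2 (by have := b25; linarith)
  · exact main 5 2 (by norm_num) (by norm_num) h1 h2 b25

theorem good3 {a b c : ℕ} (ha : 1 ≤ a) (hb : 1 ≤ b) (hc : 1 ≤ c) (h : 5 ≤ a + b + c) :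
    ph 1 ^ 3 * ph (a + b + c) ≤ ph (a + 1) * ph (b + 1) * ph (c + 1) := by
  have hP : 0 ≤ ph 1 ^ 3 := by have := ph_pos 1; positivity
  have main : ∀ a0 b0 c0 : ℕ, 1 ≤ a0 → 1 ≤ b0 → 1 ≤ c0 → a0 ≤ a → b0 ≤ b → c0 ≤ c →
      ph 1 ^ 3 * ph (a0 + b0 + c0) ≤ ph (b0 + 1) * ph (c0 + 1) * ph (a0 + 1) →
      ph 1 ^ 3 * ph (a + b + c) ≤ ph (a + 1) * ph (b + 1) * ph (c + 1) := by
    intro a0 b0 c0 ha0 hb0 hc0 ha hb hc h0
    have h1 := step hP (a0 + 1) (a0 + b0 + c0) (a - a0) (by omega) (by omega) h0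
    rw [show a0 + b0 + c0 + (a - a0) = a + b0 + c0 by omega,
      show a0 + 1 + (a - a0) = a + 1 by omega] at h1
    have h1' : ph 1 ^ 3 * ph (a + b0 + c0) ≤ (ph (a + 1) * ph (c0 + 1)) * ph (b0 + 1) := by
      linarith
    have h2 := step hP (b0 + 1) (a + b0 + c0) (b - b0) (by omega) (by omega) h1'
    rw [show a + b0 + c0 + (b - b0) = a + b + c0 by omega,
      show b0 + 1 + (b - b0) = b + 1 by omega] at h2
    have h2' : ph 1 ^ 3 * ph (a + b + c0) ≤ (ph (a + 1) * ph (b + 1)) * ph (c0 + 1) := by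
      linarith
    have h3 := step hP (c0 + 1) (a + b + c0) (c - c0) (by omega) (by omega) h2'
    rwa [show a + b + c0 + (c - c0) = a + b + c by omega,
      show c0 + 1 + (c - c0) = c + 1 by omega] at h3
  have g1 := b113
  have g2 := b122
  by_cases h1 : 3 ≤ a
  · exact main 3 1 1 (by norm_num) (by norm_num) (by norm_num) h1 hb hc (by linarith)
  by_cases h2 : 3 ≤ b
  · exact main 1 3 1 (by norm_num) (by norm_num) (by norm_num) ha h2 hc (by linarith)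
  by_cases h3 : 3 ≤ c
  · exact main 1 1 3 (by norm_num) (by norm_num) (by norm_num) ha hb h3 (by linarith)
  by_cases h4 : a = 1
  · exact main 1 2 2 (by norm_num) (by norm_num) (by norm_num) ha (by omega) (by omega)
      (by linarith)
  by_cases h5 : b = 1
  · exact main 2 1 2 (by norm_num) (by norm_num) (by norm_num) (by omega) hb (by omega)
      (by linarith)
  · exact main 2 2 1 (by norm_num) (by norm_num) (by norm_num) (by omega) (by omega) hc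
      (by linarith)

theorem good4 {a b c d : ℕ} (ha : 1 ≤ a) (hb : 1 ≤ b) (hc : 1 ≤ c) (hd : 1 ≤ d) :
    ph 1 ^ 4 * ph (a + b + c + d) ≤ ph (a + 1) * ph (b + 1) * ph (c + 1) * ph (d + 1) := by
  have hP : 0 ≤ ph 1 ^ 4 := by have := ph_pos 1; positivity
  have h0 : ph 1 ^ 4 * ph 4 ≤ ph 2 ^ 3 * ph 2 := by
    have := b1111
    linarith
  have h1 := step hP 2 4 (a - 1) (by omega) (by omega) h0
  rw [show 4 + (a - 1) = a + 3 by omega, show 2 + (a - 1) = a + 1 by omega] at h1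
  have h1' : ph 1 ^ 4 * ph (a + 3) ≤ (ph 2 ^ 2 * ph (a + 1)) * ph 2 := by linarith
  have h2 := step hP 2 (a + 3) (b - 1) (by omega) (by omega) h1'
  rw [show a + 3 + (b - 1) = a + b + 2 by omega, show 2 + (b - 1) = b + 1 by omega] at h2
  have h2' : ph 1 ^ 4 * ph (a + b + 2) ≤ (ph 2 * ph (a + 1) * ph (b + 1)) * ph 2 := by linarith
  have h3 := step hP 2 (a + b + 2) (c - 1) (by omega) (by omega) h2'
  rw [show a + b + 2 + (c - 1) = a + b + c + 1 by omega, show 2 + (c - 1) = c + 1 by omega] at h3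
  have h3' : ph 1 ^ 4 * ph (a + b + c + 1) ≤ (ph (a + 1) * ph (b + 1) * ph (c + 1)) * ph 2 := by
    linarith
  have h4 := step hP 2 (a + b + c + 1) (d - 1) (by omega) (by omega) h3'
  rwa [show a + b + c + 1 + (d - 1) = a + b + c + d by omega,
    show 2 + (d - 1) = d + 1 by omega] at h4

/-- Adding blocks one after the other. -/
theorem addBlocks (θ : ℝ) (hθ : 0 ≤ θ) (r : ℕ) (hr : 1 ≤ r)
    (base : ∀ m : Fin r → ℕ, (∀ i, 1 ≤ m i) →
      θ * ph 1 ^ r * ph (∑ i, m i) ≤ ∏ i, ph (m i + 1)) :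
    ∀ (k : ℕ) (m : Fin (r + k) → ℕ), (∀ i, 1 ≤ m i) →
      θ * ph 1 ^ (r + k) * ph (∑ i, m i) ≤ ∏ i, ph (m i + 1) := by
  intro k
  induction k with
  | zero => exact base
  | succ k ih =>
    intro m hm
    have h1 := ih (fun i => m (Fin.castSucc i)) (fun i => hm _)
    have hP : 0 ≤ θ * ph 1 ^ (r + k) := by have := ph_pos 1; positivity
    have hD : 1 ≤ ∑ i : Fin (r + k), m (Fin.castSucc i) := by
      have hpos : 0 < r + k := by omega
      have h2 : m (Fin.castSucc (⟨0, hpos⟩ : Fin (r + k))) ≤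
          ∑ i : Fin (r + k), m (Fin.castSucc i) :=
        Finset.single_le_sum (f := fun i : Fin (r + k) => m (Fin.castSucc i))
          (fun _ _ => Nat.zero_le _) (Finset.mem_univ _)
      exact le_trans (hm _) h2
    have h3 := addBlock hP hD (m (Fin.last (r + k))) h1
    show θ * ph 1 ^ (r + k + 1) * ph (∑ i : Fin (r + k + 1), m i) ≤
      ∏ i : Fin (r + k + 1), ph (m i + 1)
    rw [Fin.sum_univ_castSucc, Fin.prod_univ_castSucc]
    calc θ * ph 1 ^ (r + k + 1) *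
          ph (∑ i : Fin (r + k), m (Fin.castSucc i) + m (Fin.last (r + k)))
        = θ * ph 1 ^ (r + k) * ph 1 *
          ph (∑ i : Fin (r + k), m (Fin.castSucc i) + m (Fin.last (r + k))) := by ring
      _ ≤ _ := h3

/-- At least four blocks. -/
theorem good_many {s : ℕ} (hs : 4 ≤ s) (m : Fin s → ℕ) (hm : ∀ i, 1 ≤ m i) :
    ph 1 ^ s * ph (∑ i, m i) ≤ ∏ i, ph (m i + 1) := by
  obtain ⟨k, rfl⟩ := Nat.exists_eq_add_of_le hs
  have h := addBlocks 1 zero_le_one 4 (by norm_num) (fun m hm => by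
    rw [one_mul, Fin.sum_univ_four, Fin.prod_univ_four]
    exact good4 (hm 0) (hm 1) (hm 2) (hm 3)) k m hm
  rwa [one_mul] at h

/-- The general lower bound. -/
theorem low_many {s : ℕ} (hs : 2 ≤ s) (m : Fin s → ℕ) (hm : ∀ i, 1 ≤ m i) :
    3 / π * ph 1 ^ s * ph (∑ i, m i) ≤ ∏ i, ph (m i + 1) := by
  have hpi := Real.pi_pos
  obtain ⟨k, rfl⟩ := Nat.exists_eq_add_of_le hs
  refine addBlocks (3 / π) (by positivity) 2 (by norm_num) (fun m hm => ?_) k m hm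
  rw [Fin.sum_univ_two, Fin.prod_univ_two]
  have e : 3 / π * ph 1 ^ 2 = ph 2 := by
    rw [ph1, ph2]
    field_simp
  rw [e]
  have h0 := hm 0
  have h1 := hm 1
  have h := ph_maj (a := 2) (by norm_num) (m 0 - 1) (m 1 - 1)
  rw [show 2 + (m 0 - 1) + (m 1 - 1) = m 0 + m 1 by omega,
    show 2 + (m 0 - 1) = m 0 + 1 by omega, show 2 + (m 1 - 1) = m 1 + 1 by omega] at h
  exact h

end Pool.Agent.TH233.LTP
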