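import Pool.Agent.TH233.LTP.Prod
import Pool.Agent.TH233.LTP.Seq

set_option autoImplicit false

open MeasureTheory Set Filter Topology Real

namespace Pool.Agent.TH233.LTP

open LTd

theorem Kcl_ph {d : ℕ} (hd : 1 ≤ d) : Kcl d = d * ph d ^ ((2:ℝ) / d) := by
  have hd0 : (0:ℝ) < d := by exact_mod_cast hd
  have hpi := Real.pi_pos
  have hvol : (volume (Metric.ball (0 : EuclideanSpace ℝ (Fin d)) 1)).toReal
      = π ^ ((d:ℝ) / 2) / Gamma (1 + (d:ℝ) / 2) := by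
    have : Nonempty (Fin d) := ⟨⟨0, by omega⟩⟩
    rw [EuclideanSpace.volume_ball]
    simp only [Fintype.card_fin, ENNReal.ofReal_one, one_pow, one_mul]
    have e3 : √π ^ d = π ^ ((d:ℝ) / 2) := by
      rw [Real.sqrt_eq_rpow, ← Real.rpow_natCast, ← Real.rpow_mul hpi.le]
      congr 1
      ring
    have g : 0 < Gamma ((d:ℝ) / 2 + 1) := Real.Gamma_pos_of_pos (by positivity)
    rw [e3, ENNReal.toReal_ofReal (by positivity), add_comm ((d:ℝ) / 2) 1]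
  have g : 0 < Gamma (1 + (d:ℝ) / 2) := Real.Gamma_pos_of_pos (by positivity)
  unfold Kcl ph
  rw [hvol, Real.div_rpow (by positivity) g.le, Real.mul_rpow (by positivity) g.le,
    ← Real.rpow_mul hpi.le, ← Real.rpow_mul (by positivity)]
  have e1 : (d:ℝ) / 2 * (2 / d) = 1 := by field_simp
  rw [e1, Real.rpow_one, Real.rpow_one]
  have hg2 : 0 < Gamma (1 + (d:ℝ) / 2) ^ ((2:ℝ) / d) := Real.rpow_pos_of_pos g _
  field_simp
  ring

theorem cb_ph {m : ℕ} (hm : 1 ≤ m) : cb m ^ (m:ℝ) = (ph (m + 1) / ph 1) ^ 2 := by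
  have hm0 : (0:ℝ) < m := by exact_mod_cast hm
  have hpi := Real.pi_pos
  have hb : 0 < bco ((m:ℝ) / 2) (3 / 2) 1 := bco_pos (by positivity) (by norm_num) one_pos
  have p1 := ph_pos 1
  have pm := ph_pos (m + 1)
  have h1 := const_final m
  rw [bco_scale m (by positivity), Kcl_ph (by omega)] at h1
  set b := bco ((m:ℝ) / 2) (3 / 2) 1 with hbdef
  have e1 : (b / (m + 1)) ^ ((m:ℝ) + 1) * (π ^ 2 / 4) = 3 / 4 * ph (m + 1) ^ 2 := by
    have h2 : (b / (m + 1)) * (π ^ 2 / 4) ^ (1 / ((m:ℝ) + 1)) =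
        (3 / 4 : ℝ) ^ (1 / ((m:ℝ) + 1)) * ph (m + 1) ^ ((2:ℝ) / ((m:ℝ) + 1)) := by
      push_cast at h1
      have h3 : (m:ℝ) + 1 ≠ 0 := by positivity
      calc (b / (m + 1)) * (π ^ 2 / 4) ^ (1 / ((m:ℝ) + 1))
          = (b * (π ^ 2 / 4) ^ (1 / ((m:ℝ) + 1))) / (m + 1) := by ring
        _ = _ := by
          rw [h1]
          field_simp
    have h3 := congrArg (fun y : ℝ => y ^ ((m:ℝ) + 1)) h2
    have e5 : ∀ y : ℝ, 0 ≤ y → (y ^ (1 / ((m:ℝ) + 1))) ^ ((m:ℝ) + 1) = y := by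
      intro y hy
      rw [← Real.rpow_mul hy, one_div_mul_cancel (by positivity), Real.rpow_one]
    rw [Real.mul_rpow (by positivity) (by positivity), e5 _ (by positivity),
      Real.mul_rpow (by positivity) (by positivity), e5 _ (by norm_num),
      ← Real.rpow_mul pm.le] at h3
    have e6 : (2:ℝ) / ((m:ℝ) + 1) * ((m:ℝ) + 1) = ((2:ℕ):ℝ) := by
      rw [div_mul_cancel₀ _ (by positivity)]
      norm_num
    rw [e6, Real.rpow_natCast] at h3
    exact h3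
  unfold cb
  rw [← hbdef, ← Real.rpow_mul (by positivity)]
  have e2 : ((m:ℝ) + 1) / m * m = (m:ℝ) + 1 := by field_simp
  rw [e2, div_pow, ph1]
  have h4 : (b / (m + 1)) ^ ((m:ℝ) + 1) = 3 / 4 * ph (m + 1) ^ 2 / (π ^ 2 / 4) := by
    rw [eq_div_iff (by positivity)]
    exact e1
  rw [h4]
  field_simp

variable {s : ℕ}

theorem Kt_ph (m : Fin s → ℕ) (hm : ∀ i, 1 ≤ m i) :
    Kt m = (∑ i, m i : ℕ) *
      (∏ i, (ph (m i + 1) / ph 1)) ^ ((2:ℝ) / (∑ i, m i : ℕ)) := by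
  unfold Kt
  set d : ℕ := ∑ i, m i with hd
  congr 1
  have p1 := ph_pos 1
  rw [← Real.finsetProd_rpow _ _ fun i _ => by have := ph_pos (m i + 1); positivity]
  refine Finset.prod_congr rfl fun i _ => ?_
  have pi := ph_pos (m i + 1)
  have h1 := cb_ph (hm i)
  have h2 : (m i : ℝ) / d = (m i : ℝ) * (1 / d) := by ring
  rw [h2, Real.rpow_mul (cb_nonneg _), h1, ← Real.rpow_natCast, ← Real.rpow_mul (by positivity)]
  congr 1
  push_cast
  ring

theorem Kt_ge (m : Fin s → ℕ) (hm : ∀ i, 1 ≤ m i) (hd : 1 ≤ ∑ i, m i) {θ : ℝ} (hθ : 0 ≤ θ)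
    (h : θ * ph 1 ^ s * ph (∑ i, m i) ≤ ∏ i, ph (m i + 1)) :
    θ ^ ((2:ℝ) / (∑ i, m i : ℕ)) * Kcl (∑ i, m i) ≤ Kt m := by
  rw [Kt_ph m hm, Kcl_ph hd]
  set d : ℕ := ∑ i, m i with hdd
  have hd0 : (0:ℝ) < d := by exact_mod_cast hd
  have p1 := ph_pos 1
  have pd := ph_pos d
  have h1 : θ * ph d ≤ ∏ i, (ph (m i + 1) / ph 1) := by
    rw [Finset.prod_div_distrib, Finset.prod_const, Finset.card_univ, Fintype.card_fin,
      le_div_iff₀ (by positivity)]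
    linarith
  calc θ ^ ((2:ℝ) / d) * (d * ph d ^ ((2:ℝ) / d)) = d * (θ * ph d) ^ ((2:ℝ) / d) := by
        rw [Real.mul_rpow hθ pd.le]
        ring
    _ ≤ _ := by
        refine mul_le_mul_of_nonneg_left ?_ hd0.le
        exact Real.rpow_le_rpow (by positivity) h1 (by positivity)

end Pool.Agent.TH233.LTP
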