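import Mathlib

set_option autoImplicit false

open MeasureTheory Set Filter Topology Real

namespace Pool.Agent.TH233.LTP

/-- `(2π/x)^(x-1) Γ(x)`. -/
noncomputable def PH (x : ℝ) : ℝ := (2 * π / x) ^ (x - 1) * Gamma x

theorem PH_pos {x : ℝ} (hx : 0 < x) : 0 < PH x := by
  unfold PH
  have := Real.Gamma_pos_of_pos hx
  positivity

theorem gamma_half_lower {y : ℝ} (hy : 1 / 2 < y) :
    (y - 1 / 2) * Gamma y ^ 2 ≤ Gamma (y + 1 / 2) ^ 2 := by
  have h0 : 0 < y - 1 / 2 := by linarith
  have h1 := Real.Gamma_mul_add_mul_le_rpow_Gamma_mul_rpow_Gamma (s := y - 1 / 2) (t := y + 1 / 2)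
    (a := 1 / 2) (b := 1 / 2) h0 (by linarith) (by norm_num) (by norm_num) (by norm_num)
  have e1 : (1 / 2 : ℝ) * (y - 1 / 2) + 1 / 2 * (y + 1 / 2) = y := by ring
  rw [e1] at h1
  have g1 : 0 < Gamma (y - 1 / 2) := Real.Gamma_pos_of_pos h0
  have g2 : 0 < Gamma (y + 1 / 2) := Real.Gamma_pos_of_pos (by linarith)
  have g3 : 0 < Gamma y := Real.Gamma_pos_of_pos (by linarith)
  have e2 : Gamma (y + 1 / 2) = (y - 1 / 2) * Gamma (y - 1 / 2) := by
    rw [← Real.Gamma_add_one h0.ne']
    congr 1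
    ring
  have h2 : Gamma y ^ 2 ≤ Gamma (y - 1 / 2) * Gamma (y + 1 / 2) := by
    calc Gamma y ^ 2 ≤ (Gamma (y - 1 / 2) ^ (1 / 2 : ℝ) * Gamma (y + 1 / 2) ^ (1 / 2 : ℝ)) ^ 2 :=
          pow_le_pow_left₀ g3.le h1 2
      _ = Gamma (y - 1 / 2) * Gamma (y + 1 / 2) := by
          rw [mul_pow, ← Real.rpow_natCast, ← Real.rpow_natCast, ← Real.rpow_mul g1.le,
            ← Real.rpow_mul g2.le]
          norm_num
  calc (y - 1 / 2) * Gamma y ^ 2 ≤ (y - 1 / 2) * (Gamma (y - 1 / 2) * Gamma (y + 1 / 2)) :=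
        mul_le_mul_of_nonneg_left h2 h0.le
    _ = Gamma (y + 1 / 2) ^ 2 := by rw [← mul_assoc, ← e2]; ring

/-- Watson's inequality. -/
theorem watson {x : ℝ} (hx : 1 ≤ x) : (x - 1 / 4) * Gamma x ^ 2 ≤ Gamma (x + 1 / 2) ^ 2 := by
  let h : ℕ → ℝ := fun n => Gamma (x + n + 1 / 2) ^ 2 / ((x + n - 1 / 4) * Gamma (x + n) ^ 2)
  have hanti : ∀ n, h (n + 1) ≤ h n := by
    intro n
    have hn : (0:ℝ) ≤ n := Nat.cast_nonneg n
    set y : ℝ := x + n with hy
    have hy1 : 1 ≤ y := by linarith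
    have g1 : 0 < Gamma y := Real.Gamma_pos_of_pos (by linarith)
    have g2 : 0 < Gamma (y + 1 / 2) := Real.Gamma_pos_of_pos (by linarith)
    have e1 : x + ((n + 1 : ℕ) : ℝ) = y + 1 := by push_cast; ring
    have e2 : Gamma (y + 1) = y * Gamma y := Real.Gamma_add_one (by linarith)
    have e3 : Gamma (y + 1 + 1 / 2) = (y + 1 / 2) * Gamma (y + 1 / 2) := by
      rw [← Real.Gamma_add_one (by linarith)]
      congr 1
      ring
    show Gamma (x + ((n + 1 : ℕ) : ℝ) + 1 / 2) ^ 2 /
      ((x + ((n + 1 : ℕ) : ℝ) - 1 / 4) * Gamma (x + ((n + 1 : ℕ) : ℝ)) ^ 2) ≤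
      Gamma (y + 1 / 2) ^ 2 / ((y - 1 / 4) * Gamma y ^ 2)
    rw [e1, e2, e3, div_le_div_iff₀ (by have : 0 < y + 1 - 1 / 4 := by linarith
                                        positivity)
      (by have : 0 < y - 1 / 4 := by linarith
          positivity)]
    have key : (y + 1 / 2) ^ 2 * (y - 1 / 4) ≤ (y + 1 - 1 / 4) * y ^ 2 := by nlinarith
    have hp : 0 ≤ Gamma (y + 1 / 2) ^ 2 * Gamma y ^ 2 := by positivity
    nlinarith [mul_le_mul_of_nonneg_right key hp]
  have hle : ∀ n, h n ≤ h 0 := by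
    intro n
    induction n with
    | zero => exact le_rfl
    | succ n ih => exact (hanti n).trans ih
  have hlow : ∀ n : ℕ, 1 - (1 / 4) / (x + n - 1 / 4) ≤ h 0 := by
    intro n
    refine le_trans ?_ (hle n)
    have hn : (0:ℝ) ≤ n := Nat.cast_nonneg n
    have hd : 0 < x + n - 1 / 4 := by linarith
    have g1 : 0 < Gamma (x + n) := Real.Gamma_pos_of_pos (by linarith)
    show _ ≤ Gamma (x + n + 1 / 2) ^ 2 / ((x + n - 1 / 4) * Gamma (x + n) ^ 2)
    rw [le_div_iff₀ (by positivity)]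
    have h1 := gamma_half_lower (y := x + n) (by linarith)
    have h2 : (1 - 1 / 4 / (x + n - 1 / 4)) * (x + n - 1 / 4) = x + n - 1 / 2 := by
      rw [sub_mul, div_mul_cancel₀ _ hd.ne']
      ring
    calc (1 - 1 / 4 / (x + n - 1 / 4)) * ((x + n - 1 / 4) * Gamma (x + n) ^ 2)
        = (x + n - 1 / 2) * Gamma (x + n) ^ 2 := by
          rw [← mul_assoc, h2]
      _ ≤ _ := h1
  have hlim : Tendsto (fun n : ℕ => 1 - (1 / 4) / (x + n - 1 / 4)) atTop (𝓝 (1 - 0)) := by
    refine tendsto_const_nhds.sub ?_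
    refine Tendsto.div_atTop tendsto_const_nhds ?_
    have h1 : Tendsto (fun n : ℕ => (n:ℝ) + (x - 1 / 4)) atTop atTop :=
      tendsto_atTop_add_const_right _ _ tendsto_natCast_atTop_atTop
    refine h1.congr fun n => ?_
    ring
  have h1 : (1:ℝ) ≤ h 0 := by
    have := le_of_tendsto' hlim hlow
    linarith
  have g1 : 0 < Gamma x := Real.Gamma_pos_of_pos (by linarith)
  have e0 : h 0 = Gamma (x + 1 / 2) ^ 2 / ((x - 1 / 4) * Gamma x ^ 2) := by
    simp [h]
  rw [e0, le_div_iff₀ (by have : 0 < x - 1 / 4 := by linarith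
                          positivity)] at h1
  linarith

theorem PH_logconcave {x : ℝ} (hx : 3 / 2 ≤ x) : PH x * PH (x + 1) ≤ PH (x + 1 / 2) ^ 2 := by
  have hx0 : 0 < x := by linarith
  have hpi := Real.pi_pos
  have g1 : 0 < Gamma x := Real.Gamma_pos_of_pos hx0
  have g2 : 0 < Gamma (x + 1 / 2) := Real.Gamma_pos_of_pos (by linarith)
  have g3 : 0 < Gamma (x + 1) := Real.Gamma_pos_of_pos (by linarith)
  have p1 := PH_pos hx0
  have p2 : 0 < PH (x + 1) := PH_pos (by linarith)
  have p3 : 0 < PH (x + 1 / 2) := PH_pos (by linarith)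
  have lPH : ∀ y : ℝ, 0 < y → Real.log (PH y) =
      (y - 1) * (Real.log (2 * π) - Real.log y) + Real.log (Gamma y) := by
    intro y hy
    have g := Real.Gamma_pos_of_pos hy
    unfold PH
    rw [Real.log_mul (by positivity) g.ne', Real.log_rpow (by positivity),
      Real.log_div (by positivity) hy.ne']
  rw [← Real.log_le_log_iff (by positivity) (by positivity), Real.log_mul p1.ne' p2.ne',
    Real.log_pow, lPH x hx0, lPH (x + 1) (by linarith), lPH (x + 1 / 2) (by linarith),
    Real.Gamma_add_one hx0.ne', Real.log_mul hx0.ne' g1.ne']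
  -- Watson
  have hW : Real.log (x - 1 / 4) + 2 * Real.log (Gamma x) ≤ 2 * Real.log (Gamma (x + 1 / 2)) := by
    have h1 := Real.log_le_log (by have : 0 < x - 1 / 4 := by linarith
                                   positivity) (watson (x := x) (by linarith))
    rw [Real.log_mul (by linarith) (by positivity), Real.log_pow, Real.log_pow] at h1
    exact_mod_cast h1
  -- the elementary inequalities
  have hA : x * (2 * Real.log (x + 1 / 2) - Real.log x - Real.log (x + 1)) ≤
      1 / (4 * (x + 1)) := by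
    have h1 := Real.log_le_sub_one_of_pos (x := (x + 1 / 2) ^ 2 / (x * (x + 1))) (by positivity)
    rw [Real.log_div (by positivity) (by positivity), Real.log_pow,
      Real.log_mul (by positivity) (by positivity)] at h1
    have h2 : x * ((x + 1 / 2) ^ 2 / (x * (x + 1)) - 1) = 1 / (4 * (x + 1)) := by
      field_simp
      ring
    have h3 := mul_le_mul_of_nonneg_left h1 hx0.le
    rw [h2] at h3
    push_cast at h3
    linarith
  have hB : 1 / (4 * (x + 1)) ≤ Real.log (4 * (x + 1)) - Real.log (4 * x + 3) := by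
    have h1 := Real.log_le_sub_one_of_pos (x := (4 * x + 3) / (4 * (x + 1))) (by positivity)
    rw [Real.log_div (by positivity) (by positivity)] at h1
    have h2 : (4 * x + 3) / (4 * (x + 1)) - 1 = -(1 / (4 * (x + 1))) := by
      field_simp
      ring
    rw [h2] at h1
    linarith
  have hC : 2 * Real.log x + Real.log (4 * (x + 1)) - Real.log (4 * x + 3) ≤
      Real.log (x + 1 / 2) + Real.log (x - 1 / 4) := by
    have hq : 0 < x - 1 / 4 := by linarith
    have h1 : x ^ 2 * (4 * (x + 1)) ≤ (x + 1 / 2) * (x - 1 / 4) * (4 * x + 3) := by nlinarith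
    have h2 := Real.log_le_log (by positivity) h1
    have h3 : Real.log (x ^ 2 * (4 * (x + 1))) = 2 * Real.log x + Real.log (4 * (x + 1)) := by
      rw [Real.log_mul (by positivity) (by positivity), Real.log_pow]
      push_cast
      ring
    have h4 : Real.log ((x + 1 / 2) * (x - 1 / 4) * (4 * x + 3)) =
        Real.log (x + 1 / 2) + Real.log (x - 1 / 4) + Real.log (4 * x + 3) := by
      rw [Real.log_mul (by positivity) (by positivity),
        Real.log_mul (by positivity) (by positivity)]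
    linarith
  push_cast
  nlinarith [hW, hA, hB, hC]

end Pool.Agent.TH233.LTP
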