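import Pool.Agent.Helper717.LT.P_specP
import Pool.Agent.Helper717.LT.P_pd_basic
import Pool.Agent.Helper717.LT.P_T_slice
import Pool.Agent.Helper717.LT.P_T_all
import Pool.Agent.Helper717.LT.P_H_approx
import Pool.Agent.Helper717.LT.P_bco_pos

set_option autoImplicit false

open MeasureTheory Set Filter Topology Real
open scoped Matrix

namespace Pool.Agent.TH233.LTP

open LTd

theorem gram_quad {m n : ℕ} (w : Fin n → (Fin m → ℝ) → ℝ)
    (hw : ∀ i, Continuous (w i)) (hc : ∀ i, HasCompactSupport (w i)) (v : Fin n → ℝ) :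
    ∫ x, (∑ i, v i * w i x) ^ 2 = ∑ i, ∑ j, v i * v j * ∫ z, w i z * w j z := by
  have iW : ∀ i j, Integrable (fun z => w i z * w j z) volume := fun i j =>
    ((hw i).mul (hw j)).integrable_of_hasCompactSupport ((hc i).mul_right)
  have h2 : ∀ x, (∑ i, v i * w i x) ^ 2 = ∑ i, ∑ j, v i * v j * (w i x * w j x) := by
    intro x
    rw [sq, Finset.sum_mul_sum]
    refine Finset.sum_congr rfl fun i _ => Finset.sum_congr rfl fun j _ => ?_
    ring
  rw [integral_congr_ae (Eventually.of_forall h2), integral_finsetSum]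
  · refine Finset.sum_congr rfl fun i _ => ?_
    rw [integral_finsetSum]
    · refine Finset.sum_congr rfl fun j _ => ?_
      rw [integral_const_mul]
    · intro j _
      exact (iW i j).const_mul _
  · intro i _
    exact integrable_finsetSum _ fun j _ => (iW i j).const_mul _

/-- The sharp inequality for `g = 3/2` for families with Gram matrix at most one. -/
theorem T_gram (m n : ℕ) {a : ℝ} (ha : 0 < a) (w : Fin n → (Fin m → ℝ) → ℝ)
    (hw : ∀ i, ContDiff ℝ 1 (w i)) (hc : ∀ i, HasCompactSupport (w i))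
    (hG : ∀ v : Fin n → ℝ, ∫ x, (∑ i, v i * w i x) ^ 2 ≤ ∑ i, v i ^ 2) :
    bco (m / 2) (3 / 2) a * ∫ x, (∑ i, w i x ^ 2) ^ pp (3 / 2 + m / 2) ≤
      (∫ x, ∑ k, ∑ i, pd k (w i) x ^ 2) + a * ∑ i, ∫ x, w i x ^ 2 := by
  classical
  have hwc : ∀ i, Continuous (w i) := fun i => (hw i).continuous
  set G : Mat n := Matrix.of fun i j => ∫ x, w i x * w j x with hGdef
  have hquad : ∀ v : Fin n → ℝ, ∑ i, ∑ j, v i * v j * G i j = ∫ x, (∑ i, v i * w i x) ^ 2 :=
    fun v => (gram_quad w hwc hc v).symm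
  have hPSD : PSD G := by
    refine ⟨fun i j => ?_, fun v => ?_⟩
    · show ∫ x, w i x * w j x = ∫ x, w j x * w i x
      simp only [mul_comm]
    · rw [hquad]
      exact integral_nonneg fun x => sq_nonneg _
  obtain ⟨V, r, hV, hV', hr, hR⟩ := specP hPSD
  have h1 := T_slice (m := m) (n := n) (g := 3 / 2) ha (T_all m (3 / 2) le_rfl) w hw hc V r hV hV'
    hR
  have h4 : Vᵀ * G * V = Matrix.diagonal r := by
    rw [hR]
    calc Vᵀ * (V * Matrix.diagonal r * Vᵀ) * V
        = (Vᵀ * V) * Matrix.diagonal r * (Vᵀ * V) := by simp only [Matrix.mul_assoc]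
      _ = Matrix.diagonal r := by rw [hV']; simp
  have hr1 : ∀ i, r i ≤ 1 := by
    intro i
    have h5 : (Vᵀ * G * V) i i = r i := by rw [h4]; simp
    have h7 : ∑ k, ∑ l, V k i * V l i * G k l = (Vᵀ * G * V) i i := by
      simp only [Matrix.mul_apply, Matrix.transpose_apply, Finset.sum_mul]
      rw [Finset.sum_comm]
      refine Finset.sum_congr rfl fun l _ => Finset.sum_congr rfl fun k _ => ?_
      ring
    have h8 : ∑ k, V k i ^ 2 = 1 := by
      have h9 : (Vᵀ * V) i i = 1 := by rw [hV']; simp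
      rw [← h9]
      simp only [Matrix.mul_apply, Matrix.transpose_apply]
      exact Finset.sum_congr rfl fun k _ => sq _
    rw [← h5, ← h7, hquad, ← h8]
    exact hG _
  have htr : ∑ i, r i = ∑ i, ∫ x, w i x ^ 2 := by
    have h10 : G.trace = ∑ i, r i := by
      rw [hR, Matrix.trace_mul_comm, ← Matrix.mul_assoc, hV', Matrix.one_mul,
        Matrix.trace_diagonal]
    rw [← h10, Matrix.trace]
    refine Finset.sum_congr rfl fun i _ => ?_
    show ∫ x, w i x * w i x = _
    simp only [sq]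
  have h3 : ∑ i, r i ^ pp (3 / 2) ≤ ∑ i, ∫ x, w i x ^ 2 := by
    rw [← htr]
    refine Finset.sum_le_sum fun i _ => ?_
    have e2 : pp (3 / 2) = ((3 : ℕ) : ℝ) := by
      rw [pp]
      norm_num
    rw [e2, Real.rpow_natCast]
    have := hr i
    have := hr1 i
    calc r i ^ 3 ≤ r i ^ 1 := pow_le_pow_of_le_one (hr i) (hr1 i) (by norm_num)
      _ = r i := pow_one _
  nlinarith [mul_le_mul_of_nonneg_left h3 ha.le]

/-- Real valued `H¹` families with Gram matrix at most one. -/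
theorem H_gram (m n : ℕ) {a : ℝ} (ha : 0 < a) (f : Fin n → (Fin m → ℝ) → ℝ)
    (g : Fin n → Fin m → (Fin m → ℝ) → ℝ) (hf : ∀ i, WGrad (f i) (g i))
    (hG : ∀ v : Fin n → ℝ, ∫ x, (∑ i, v i * f i x) ^ 2 ≤ ∑ i, v i ^ 2) :
    Integrable (fun x => (∑ i, f i x ^ 2) ^ pp (3 / 2 + m / 2)) ∧
    bco (m / 2) (3 / 2) a * ∫ x, (∑ i, f i x ^ 2) ^ pp (3 / 2 + m / 2) ≤
      (∫ x, ∑ j, ∑ i, g i j x ^ 2) + a * ∑ i, ∫ x, f i x ^ 2 := by
  have hp : 0 < pp (3 / 2 + (m:ℝ) / 2) := by
    unfold pp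
    have h0 : (0:ℝ) ≤ m := Nat.cast_nonneg m
    have h1 : (3 / 2 + (m:ℝ) / 2) - 1 = 1 / 2 + (m:ℝ) / 2 := by ring
    rw [h1]; positivity
  have hb : 0 < bco ((m:ℝ) / 2) (3 / 2) a := bco_pos (by positivity) (by norm_num) ha
  set p := pp (3 / 2 + (m:ℝ) / 2) with hpdef
  set b := bco ((m:ℝ) / 2) (3 / 2) a with hbdef
  set E := (∫ x, ∑ j, ∑ i, g i j x ^ 2) + a * ∑ i, ∫ x, f i x ^ 2 with hE
  have hE0 : 0 ≤ E := by
    have h1 : 0 ≤ ∫ x, ∑ j, ∑ i, g i j x ^ 2 := integral_nonneg fun x =>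
      Finset.sum_nonneg fun j _ => Finset.sum_nonneg fun i _ => sq_nonneg _
    have h2 : 0 ≤ ∑ i, ∫ x, f i x ^ 2 :=
      Finset.sum_nonneg fun i _ => integral_nonneg fun x => sq_nonneg _
    positivity
  obtain ⟨F, hF1, hF2, hF3, hF4, hF5⟩ := H_approx f g hf
  have hcont : ∀ k, Continuous fun x => (∑ i, F k i x ^ 2) ^ p := by
    intro k
    refine Continuous.rpow_const ?_ (fun x => Or.inr hp.le)
    exact continuous_finsetSum _ fun i _ => ((hF1 k i).continuous.pow 2)
  have hcs : ∀ k, HasCompactSupport fun x => (∑ i, F k i x ^ 2) ^ p := by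
    intro k
    refine HasCompactSupport.intro (K := ⋃ i, tsupport (F k i))
      (isCompact_iUnion fun i => hF2 k i) ?_
    intro x hx
    have : ∀ i, F k i x = 0 := by
      intro i
      by_contra h
      exact hx (mem_iUnion.2 ⟨i, subset_tsupport _ h⟩)
    simp only [this]
    simp [Real.zero_rpow hp.ne']
  have hint : ∀ k, Integrable fun x => (∑ i, F k i x ^ 2) ^ p := fun k =>
    (hcont k).integrable_of_hasCompactSupport (hcs k)
  have hnn : ∀ k x, 0 ≤ (∑ i, F k i x ^ 2) ^ p := fun k x =>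
    Real.rpow_nonneg (Finset.sum_nonneg fun i _ => sq_nonneg _) _
  have hnn' : ∀ x, 0 ≤ (∑ i, f i x ^ 2) ^ p := fun x =>
    Real.rpow_nonneg (Finset.sum_nonneg fun i _ => sq_nonneg _) _
  have htr : ∀ k, ∑ i, ∫ x, F k i x ^ 2 ≤ ∑ i, ∫ x, f i x ^ 2 := by
    classical
    intro k
    refine Finset.sum_le_sum fun i _ => ?_
    have := hF3 k (fun j => if j = i then 1 else 0)
    simpa using this
  have hbound : ∀ k : ℕ, ∫ x, (∑ i, F k i x ^ 2) ^ p ≤ (E + 1 / ((k:ℝ) + 1)) / b := by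
    intro k
    rw [le_div_iff₀' hb]
    have h1 := T_gram m n ha (F k) (hF1 k) (hF2 k) (fun v => (hF3 k v).trans (hG v))
    have h2 := hF5 k
    have h3 := mul_le_mul_of_nonneg_left (htr k) ha.le
    rw [hE]
    linarith
  have hlim : ∀ᵐ x, Tendsto (fun k => (∑ i, F k i x ^ 2) ^ p) atTop (𝓝 ((∑ i, f i x ^ 2) ^ p)) := by
    filter_upwards [hF4] with x hx
    exact (tendsto_finsetSum _ fun i _ => (hx i).pow 2).rpow_const (Or.inr hp.le)
  have haesm : AEStronglyMeasurable (fun x => (∑ i, f i x ^ 2) ^ p) volume :=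
    aestronglyMeasurable_of_tendsto_ae atTop (fun k => (hint k).aestronglyMeasurable) hlim
  have hfatou : ∫⁻ x, ENNReal.ofReal ((∑ i, f i x ^ 2) ^ p) ≤ ENNReal.ofReal (E / b) := by
    calc ∫⁻ x, ENNReal.ofReal ((∑ i, f i x ^ 2) ^ p)
        = ∫⁻ x, liminf (fun k => ENNReal.ofReal ((∑ i, F k i x ^ 2) ^ p)) atTop := by
          apply lintegral_congr_ae
          filter_upwards [hlim] with x hx
          exact ((ENNReal.continuous_ofReal.tendsto _).comp hx).liminf_eq.symm
      _ ≤ liminf (fun k => ∫⁻ x, ENNReal.ofReal ((∑ i, F k i x ^ 2) ^ p)) atTop :=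
          lintegral_liminf_le' fun k => (hcont k).measurable.ennreal_ofReal.aemeasurable
      _ ≤ liminf (fun k : ℕ => ENNReal.ofReal ((E + 1 / ((k:ℝ) + 1)) / b)) atTop := by
          refine liminf_le_liminf (Eventually.of_forall fun k => ?_)
          change ∫⁻ x, ENNReal.ofReal ((∑ i, F k i x ^ 2) ^ p) ≤ _
          rw [← ofReal_integral_eq_lintegral_ofReal (hint k) (Eventually.of_forall (hnn k))]
          exact ENNReal.ofReal_le_ofReal (hbound k)
      _ = ENNReal.ofReal (E / b) := by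
          apply Tendsto.liminf_eq
          apply (ENNReal.continuous_ofReal.tendsto _).comp
          have h1 : Tendsto (fun k : ℕ => (E + 1 / ((k:ℝ) + 1)) / b) atTop (𝓝 ((E + 0) / b)) :=
            (tendsto_one_div_add_atTop_nhds_zero_nat.const_add E).div_const b
          rwa [add_zero] at h1
  have hI : Integrable (fun x => (∑ i, f i x ^ 2) ^ p) := by
    refine ⟨haesm, ?_⟩
    rw [hasFiniteIntegral_iff_ofReal (Eventually.of_forall hnn')]
    exact lt_of_le_of_lt hfatou ENNReal.ofReal_lt_top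
  refine ⟨hI, ?_⟩
  rw [← le_div_iff₀' hb, integral_eq_lintegral_of_nonneg_ae (Eventually.of_forall hnn') haesm]
  exact ENNReal.toReal_le_of_le_ofReal (by positivity) hfatou

end Pool.Agent.TH233.LTP
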