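import Pool.Agent.TH233.LTP.Block

set_option autoImplicit false

open MeasureTheory Set Filter Topology Real
open scoped Matrix

namespace Pool.Agent.TH233.LTP

open LTd Function

variable {s : ℕ} {m : Fin s → ℕ}

/-- The tensor product of the functions `v i` on `ℝ^(m i)`. -/
noncomputable def tp (v : ∀ i : Fin s, (Fin (m i) → ℝ) → ℂ) (x : ∀ i, Fin (m i) → ℝ) : ℂ :=
  ∏ i, v i (x i)

theorem tp_norm (v : ∀ i : Fin s, (Fin (m i) → ℝ) → ℂ) (x : ∀ i, Fin (m i) → ℝ) :
    ‖tp v x‖ ^ 2 = ∏ i, ‖v i (x i)‖ ^ 2 := by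
  unfold tp
  rw [norm_prod, Finset.prod_pow]

theorem tp_memLp (v : ∀ i : Fin s, (Fin (m i) → ℝ) → ℂ) (hv : ∀ i, MemLp (v i) 2 volume) :
    MemLp (tp v) 2 volume := by
  have hm : AEStronglyMeasurable (tp v) volume := by
    refine Finset.aestronglyMeasurable_fun_prod _ fun i _ => ?_
    exact (hv i).aestronglyMeasurable.comp_quasiMeasurePreserving
      (Measure.quasiMeasurePreserving_eval _ i)
  rw [memLp_two_iff_integrable_sq_norm hm]
  simp only [tp_norm]
  exact Integrable.fintype_prod_dep (f := fun i y => ‖v i y‖ ^ 2)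
    (fun i => (hv i).integrable_norm_pow two_ne_zero)

theorem tp_int (v : ∀ i : Fin s, (Fin (m i) → ℝ) → ℂ) :
    ∫ x, ‖tp v x‖ ^ 2 = ∏ i, ∫ y, ‖v i y‖ ^ 2 := by
  simp only [tp_norm]
  exact integral_fintype_prod_volume_eq_prod (fun i y => ‖v i y‖ ^ 2)

theorem tp_inner (v w : ∀ i : Fin s, (Fin (m i) → ℝ) → ℂ) :
    ∫ x, (starRingEnd ℂ) (tp v x) * tp w x = ∏ i, ∫ y, (starRingEnd ℂ) (v i y) * w i y := by
  have h : ∀ x, (starRingEnd ℂ) (tp v x) * tp w x =
      ∏ i, (starRingEnd ℂ) (v i (x i)) * w i (x i) := by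
    intro x
    unfold tp
    rw [map_prod, Finset.prod_mul_distrib]
  simp only [h]
  exact integral_fintype_prod_volume_eq_prod (fun i y => (starRingEnd ℂ) (v i y) * w i y)

theorem tp_update (v : ∀ i : Fin s, (Fin (m i) → ℝ) → ℂ) (i : Fin s) (z : ∀ i, Fin (m i) → ℝ)
    (a : Fin (m i) → ℝ) :
    tp v (update z i a) = v i a * ∏ j ∈ Finset.univ.erase i, v j (z j) := by
  unfold tp
  rw [← Finset.mul_prod_erase Finset.univ _ (Finset.mem_univ i), update_self]
  congr 1
  refine Finset.prod_congr rfl fun j hj => ?_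
  rw [update_of_ne (Finset.ne_of_mem_erase hj)]

theorem tp_update' (v : ∀ i : Fin s, (Fin (m i) → ℝ) → ℂ) (i : Fin s)
    (G : (Fin (m i) → ℝ) → ℂ) (z : ∀ i, Fin (m i) → ℝ) (a : Fin (m i) → ℝ) :
    tp (update v i G) (update z i a) = G a * ∏ j ∈ Finset.univ.erase i, v j (z j) := by
  rw [tp_update, update_self]
  congr 1
  refine Finset.prod_congr rfl fun j hj => ?_
  rw [update_of_ne (Finset.ne_of_mem_erase hj)]

/-- The directional derivative along a coordinate. -/
noncomputable def pe (i : Fin s) (k : Fin (m i)) (φ : (∀ i, Fin (m i) → ℝ) → ℝ)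
    (x : ∀ i, Fin (m i) → ℝ) : ℝ :=
  fderiv ℝ φ x (Pi.single i (Pi.single k 1))

theorem pe_cont (i : Fin s) (k : Fin (m i)) (φ : (∀ i, Fin (m i) → ℝ) → ℝ)
    (hφ : ContDiff ℝ (⊤ : ℕ∞) φ) (hc : HasCompactSupport φ) :
    Continuous (pe i k φ) ∧ HasCompactSupport (pe i k φ) := by
  constructor
  · have h1 : Continuous (fderiv ℝ φ) := hφ.continuous_fderiv (by simp)
    exact h1.clm_apply continuous_const
  · have h1 : HasCompactSupport (fderiv ℝ φ) := hc.fderiv (𝕜 := ℝ)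
    exact h1.comp_left (g := fun L : (∀ i, Fin (m i) → ℝ) →L[ℝ] ℝ =>
      L (Pi.single i (Pi.single k 1))) rfl

theorem slice_test (i : Fin s) (k : Fin (m i)) (φ : (∀ i, Fin (m i) → ℝ) → ℝ)
    (hφ : ContDiff ℝ (⊤ : ℕ∞) φ) (hc : HasCompactSupport φ) (z : ∀ i, Fin (m i) → ℝ) :
    ContDiff ℝ (⊤ : ℕ∞) (fun a : Fin (m i) → ℝ => φ (update z i a)) ∧
    HasCompactSupport (fun a : Fin (m i) → ℝ => φ (update z i a)) ∧
    ∀ a, pd k (fun a : Fin (m i) → ℝ => φ (update z i a)) a = pe i k φ (update z i a) := by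
  refine ⟨hφ.comp (contDiff_update _ z i), hc.comp_isClosedEmbedding
    (isClosedEmbedding_update z i), fun a => ?_⟩
  have h1 : HasFDerivAt φ (fderiv ℝ φ (update z i a)) (update z i a) :=
    ((hφ.differentiable (by simp)) _).hasFDerivAt
  have h2 := h1.comp a (hasFDerivAt_update (𝕜 := ℝ) z a)
  have h3 : fderiv ℝ (fun a : Fin (m i) → ℝ => φ (update z i a)) a = _ := h2.fderiv
  unfold pd pe
  rw [h3]
  rw [ContinuousLinearMap.comp_apply]
  congr 1
  ext j l
  by_cases hj : j = i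
  · subst hj
    simp
  · simp [hj]

/-- The product rule for weak derivatives of tensor products. -/
theorem tp_weak (v : ∀ i : Fin s, (Fin (m i) → ℝ) → ℂ) (hv : ∀ i, MemLp (v i) 2 volume)
    (i : Fin s) (k : Fin (m i)) (G : (Fin (m i) → ℝ) → ℂ) (hG : MemLp G 2 volume)
    (hw : ∀ φ : (Fin (m i) → ℝ) → ℝ, ContDiff ℝ (⊤ : ℕ∞) φ → HasCompactSupport φ →
      ∫ x, v i x * (pd k φ x : ℂ) = - ∫ x, G x * (φ x : ℂ))
    (φ : (∀ i, Fin (m i) → ℝ) → ℝ) (hφ : ContDiff ℝ (⊤ : ℕ∞) φ) (hc : HasCompactSupport φ) :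
    ∫ x, tp v x * (pe i k φ x : ℂ) = - ∫ x, tp (update v i G) x * (φ x : ℂ) := by
  obtain ⟨n, rfl⟩ : ∃ n, s = n + 1 := ⟨s - 1, by have := i.pos; omega⟩
  have hpe := pe_cont i k φ hφ hc
  have hv' : ∀ j, MemLp (update v i G j) 2 volume := by
    intro j
    by_cases hj : j = i
    · subst hj
      rwa [update_self]
    · rw [update_of_ne hj]
      exact hv j
  have I1 : Integrable (fun x => tp v x * (pe i k φ x : ℂ)) volume := by
    have h1 : MemLp (pe i k φ) 2 volume := hpe.1.memLp_of_hasCompactSupport hpe.2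
    have h2 : MemLp (fun x => (pe i k φ x : ℂ)) 2 volume := h1.ofReal
    exact (tp_memLp v hv).integrable_mul h2
  have I2 : Integrable (fun x => tp (update v i G) x * (φ x : ℂ)) volume := by
    have h1 : MemLp φ 2 volume := hφ.continuous.memLp_of_hasCompactSupport hc
    have h2 : MemLp (fun x => (φ x : ℂ)) 2 volume := h1.ofReal
    exact (tp_memLp _ hv').integrable_mul h2
  let e := MeasurableEquiv.piFinSuccAbove (fun j : Fin (n + 1) => Fin (m j) → ℝ) i
  have he : MeasurePreserving e.symm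
      (volume : Measure ((Fin (m i) → ℝ) × (∀ j : Fin n, Fin (m (i.succAbove j)) → ℝ))) volume :=
    (volume_preserving_piFinSuccAbove (fun j : Fin (n + 1) => Fin (m j) → ℝ) i).symm
  have hfub : ∀ F : (∀ j : Fin (n + 1), Fin (m j) → ℝ) → ℂ, Integrable F volume →
      ∫ x, F x = ∫ y : ∀ j : Fin n, Fin (m (i.succAbove j)) → ℝ, ∫ a : Fin (m i) → ℝ,
        F (update (i.insertNth (α := fun j => Fin (m j) → ℝ) (0 : Fin (m i) → ℝ) y) i a) := by
    intro F hF
    have h1 : ∫ p, F (e.symm p) = ∫ x, F x := he.integral_comp' F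
    have h2 : Integrable (fun p => F (e.symm p)) volume :=
      (he.integrable_comp_emb e.symm.measurableEmbedding).2 hF
    rw [← h1, Measure.volume_eq_prod, integral_prod_symm _ h2]
    refine integral_congr_ae (Eventually.of_forall fun y => ?_)
    refine integral_congr_ae (Eventually.of_forall fun a => ?_)
    show F (e.symm (a, y)) = F _
    congr 1
    rw [Fin.update_insertNth]
    rfl
  rw [hfub _ I1, hfub _ I2, ← integral_neg]
  refine integral_congr_ae (Eventually.of_forall fun y => ?_)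
  set z : ∀ j : Fin (n + 1), Fin (m j) → ℝ :=
    i.insertNth (α := fun j => Fin (m j) → ℝ) (0 : Fin (m i) → ℝ) y with hz
  obtain ⟨t1, t2, t3⟩ := slice_test i k φ hφ hc z
  show ∫ a, tp v (update z i a) * (pe i k φ (update z i a) : ℂ) =
    - ∫ a, tp (update v i G) (update z i a) * (φ (update z i a) : ℂ)
  have e3 : ∀ a, tp (update v i G) (update z i a) =
      G a * ∏ j ∈ Finset.univ.erase i, v j (z j) := fun a => tp_update' v i G z a
  have e4 : ∀ a, tp v (update z i a) = v i a * ∏ j ∈ Finset.univ.erase i, v j (z j) :=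
    fun a => tp_update v i z a
  simp only [e3, e4, ← t3]
  have h5 := hw _ t1 t2
  have e1 : ∀ a, v i a * (∏ j ∈ Finset.univ.erase i, v j (z j)) *
      (pd k (fun a : Fin (m i) → ℝ => φ (update z i a)) a : ℂ) =
        (∏ j ∈ Finset.univ.erase i, v j (z j)) *
        (v i a * (pd k (fun a : Fin (m i) → ℝ => φ (update z i a)) a : ℂ)) := fun a => by ring
  have e2 : ∀ a, G a * (∏ j ∈ Finset.univ.erase i, v j (z j)) * (φ (update z i a) : ℂ) =
      (∏ j ∈ Finset.univ.erase i, v j (z j)) * (G a * (φ (update z i a) : ℂ)) :=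
    fun a => by ring
  simp only [e1, e2]
  rw [integral_const_mul, integral_const_mul, h5]
  ring

/-- The constant for the blocks `m`. -/
noncomputable def Kt (m : Fin s → ℕ) : ℝ :=
  (∑ i, m i : ℕ) * ∏ i, cb (m i) ^ ((m i : ℝ) / (∑ i, m i : ℕ))

theorem amgm (m : Fin s → ℕ) (hd : 0 < ∑ i, m i) (hm : ∀ i, 1 ≤ m i) (c X : Fin s → ℝ)
    (hc : ∀ i, 0 ≤ c i) (hX : ∀ i, 0 ≤ X i) :
    (∑ i, m i : ℕ) * (∏ i, c i ^ ((m i : ℝ) / (∑ i, m i : ℕ))) * ∏ i, X i ≤
      ∑ i, m i * (c i * X i ^ (((∑ i, m i : ℕ) : ℝ) / m i)) := by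
  set d : ℕ := ∑ i, m i with hdd
  have hd0 : (0:ℝ) < d := by exact_mod_cast hd
  have hm0 : ∀ i, (0:ℝ) < m i := fun i => by exact_mod_cast hm i
  have h := Real.geom_mean_le_arith_mean_weighted Finset.univ (fun i : Fin s => (m i : ℝ) / d)
    (fun i => c i * X i ^ ((d:ℝ) / m i)) (fun i _ => by positivity)
    (by rw [← Finset.sum_div, ← Nat.cast_sum, ← hdd, div_self hd0.ne']) (fun i _ => by
      have := hX i
      have := hc i
      positivity)
  have h1 : ∀ i, (c i * X i ^ ((d:ℝ) / m i)) ^ ((m i : ℝ) / d) = c i ^ ((m i : ℝ) / d) * X i := by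
    intro i
    rw [Real.mul_rpow (hc i) (Real.rpow_nonneg (hX i) _), ← Real.rpow_mul (hX i)]
    have h2 := hm0 i
    have : (d:ℝ) / m i * ((m i : ℝ) / d) = 1 := by field_simp
    rw [this, Real.rpow_one]
  simp only [h1] at h
  rw [Finset.prod_mul_distrib] at h
  calc (d:ℝ) * (∏ i, c i ^ ((m i : ℝ) / d)) * ∏ i, X i
      = d * ((∏ i, c i ^ ((m i : ℝ) / d)) * ∏ i, X i) := by ring
    _ ≤ d * ∑ i, (m i : ℝ) / d * (c i * X i ^ ((d:ℝ) / m i)) :=
        mul_le_mul_of_nonneg_left h hd0.le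
    _ = _ := by
        rw [Finset.mul_sum]
        refine Finset.sum_congr rfl fun i _ => ?_
        field_simp

/-- The kinetic energy inequality for tensor products. -/
theorem tensor (m : Fin s → ℕ) (hm : ∀ i, 1 ≤ m i) (hs : 2 ≤ s) (N : Fin s → ℕ)
    (v : ∀ i : Fin s, Fin (N i) → (Fin (m i) → ℝ) → ℂ)
    (G : ∀ i : Fin s, Fin (N i) → Fin (m i) → (Fin (m i) → ℝ) → ℂ)
    (hv : ∀ i a, WGradC (v i a) (G i a))
    (ho : ∀ i a b, ∫ x, (starRingEnd ℂ) (v i a x) * v i b x = if a = b then 1 else 0) :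
    Integrable (fun x : ∀ i, Fin (m i) → ℝ =>
      (∑ n : ∀ i, Fin (N i), ‖tp (fun i => v i (n i)) x‖ ^ 2) ^
        (1 + 2 / ((∑ i, m i : ℕ) : ℝ))) ∧
    Kt m * ∫ x : ∀ i, Fin (m i) → ℝ,
      (∑ n : ∀ i, Fin (N i), ‖tp (fun i => v i (n i)) x‖ ^ 2) ^
        (1 + 2 / ((∑ i, m i : ℕ) : ℝ)) ≤
      ∑ n : ∀ i, Fin (N i), ∑ i, ∑ k, ∫ x,
        ‖tp (update (fun j => v j (n j)) i (G i (n i) k)) x‖ ^ 2 := by
  set d : ℕ := ∑ i, m i with hd
  have hdle : ∀ i, m i + 1 ≤ d := by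
    intro i
    obtain ⟨j, hj⟩ : ∃ j : Fin s, j ≠ i := by
      by_contra hcon
      push Not at hcon
      have h1 : Fintype.card (Fin s) ≤ 1 := Fintype.card_le_one_iff.2 fun a b => by
        rw [hcon a, hcon b]
      rw [Fintype.card_fin] at h1
      omega
    have h1 : m i + m j ≤ d := by
      rw [hd, ← Finset.add_sum_erase Finset.univ _ (Finset.mem_univ i)]
      have : m j ≤ ∑ x ∈ Finset.univ.erase i, m x :=
        Finset.single_le_sum (f := m) (fun _ _ => Nat.zero_le _)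
          (Finset.mem_erase.2 ⟨hj, Finset.mem_univ j⟩)
      omega
    have := hm j
    omega
  have hdpos : 0 < d := by
    have := hdle ⟨0, by omega⟩
    omega
  have hd0 : (0:ℝ) < d := by exact_mod_cast hdpos
  set q : ℝ := 1 + 2 / (d:ℝ) with hq
  have hq0 : 0 < q := by positivity
  let ρ : ∀ i : Fin s, (Fin (m i) → ℝ) → ℝ := fun i y => ∑ a, ‖v i a y‖ ^ 2
  have hρ0 : ∀ i y, 0 ≤ ρ i y := fun i y => Finset.sum_nonneg fun a _ => by positivity
  have hB : ∀ i, Integrable (fun y => ρ i y ^ q) ∧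
      m i * N i * (cb (m i) * ((∫ y, ρ i y ^ q) / N i) ^ ((d:ℝ) / m i)) ≤
        ∑ a, ∑ k, ∫ x, ‖G i a k x‖ ^ 2 :=
    fun i => block (hm i) (hdle i) (v i) (G i) (hv i) (ho i)
  have hdens : ∀ x : ∀ i, Fin (m i) → ℝ,
      (∑ n : ∀ i, Fin (N i), ‖tp (fun i => v i (n i)) x‖ ^ 2) ^ q = ∏ i, ρ i (x i) ^ q := by
    intro x
    have h1 : ∑ n : ∀ i, Fin (N i), ‖tp (fun i => v i (n i)) x‖ ^ 2 = ∏ i, ρ i (x i) := by
      simp only [tp_norm]
      exact (Fintype.prod_sum (fun i a => ‖v i a (x i)‖ ^ 2)).symm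
    rw [h1, Real.finsetProd_rpow _ _ fun i _ => hρ0 i (x i)]
  simp only [hdens]
  refine ⟨Integrable.fintype_prod_dep (f := fun i y => ρ i y ^ q) fun i => (hB i).1, ?_⟩
  rw [integral_fintype_prod_volume_eq_prod (fun i y => ρ i y ^ q)]
  set S : Fin s → ℝ := fun i => ∫ y, ρ i y ^ q with hS
  have hS0 : ∀ i, 0 ≤ S i := fun i => integral_nonneg fun y => Real.rpow_nonneg (hρ0 i y) _
  have hone : ∀ j a, ∫ y, ‖v j a y‖ ^ 2 = 1 := fun j a => int_norm_sq (v j) (ho j) a
  -- the kinetic energy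
  have hT : ∑ n : ∀ i, Fin (N i), ∑ i, ∑ k, ∫ x,
      ‖tp (update (fun j => v j (n j)) i (G i (n i) k)) x‖ ^ 2 =
      ∑ i, (∑ a, ∑ k, ∫ x, ‖G i a k x‖ ^ 2) * ∏ j ∈ Finset.univ.erase i, (N j : ℝ) := by
    rw [Finset.sum_comm]
    refine Finset.sum_congr rfl fun i _ => ?_
    rw [Finset.sum_comm, Finset.sum_comm (s := Finset.univ (α := Fin (N i))), Finset.sum_mul]
    refine Finset.sum_congr rfl fun k _ => ?_
    have h1 : ∀ n : ∀ i, Fin (N i),
        ∫ x, ‖tp (update (fun j => v j (n j)) i (G i (n i) k)) x‖ ^ 2 =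
        ∏ j, update (fun (j : Fin s) (_ : Fin (N j)) => (1:ℝ)) i
          (fun a => ∫ x, ‖G i a k x‖ ^ 2) j (n j) := by
      intro n
      rw [tp_int]
      refine Finset.prod_congr rfl fun j _ => ?_
      by_cases hj : j = i
      · subst hj
        rw [update_self, update_self]
      · rw [update_of_ne hj, update_of_ne hj]
        exact hone j (n j)
    simp only [h1]
    rw [← Fintype.prod_sum, ← Finset.mul_prod_erase Finset.univ _ (Finset.mem_univ i),
      update_self]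
    congr 1
    refine Finset.prod_congr rfl fun j hj => ?_
    rw [update_of_ne (Finset.ne_of_mem_erase hj)]
    simp
  rw [hT]
  set X : Fin s → ℝ := fun i => S i / N i with hX
  have hX0 : ∀ i, 0 ≤ X i := fun i => div_nonneg (hS0 i) (Nat.cast_nonneg _)
  have hNX : ∀ i, (N i : ℝ) * X i = S i := by
    intro i
    rcases Nat.eq_zero_or_pos (N i) with h0 | h0
    · have h1 : S i = 0 := by
        have h2 : ∀ y, ρ i y ^ q = 0 := by
          intro y
          have : ρ i y = 0 := by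
            show ∑ a : Fin (N i), ‖v i a y‖ ^ 2 = 0
            have : IsEmpty (Fin (N i)) := by rw [h0]; infer_instance
            exact Finset.sum_of_isEmpty _
          rw [this, Real.zero_rpow hq0.ne']
        simp only [hS, h2, integral_zero]
      rw [h1, h0]
      simp
    · have : (N i : ℝ) ≠ 0 := by positivity
      show (N i : ℝ) * (S i / N i) = S i
      field_simp
  calc Kt m * ∏ i, S i
      = (∏ i, (N i : ℝ)) * ((d:ℝ) * (∏ i, cb (m i) ^ ((m i : ℝ) / d)) * ∏ i, X i) := by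
        simp only [← hNX, Finset.prod_mul_distrib]
        unfold Kt
        rw [← hd]
        ring
    _ ≤ (∏ i, (N i : ℝ)) * ∑ i, m i * (cb (m i) * X i ^ ((d:ℝ) / m i)) := by
        refine mul_le_mul_of_nonneg_left (amgm m hdpos hm (fun i => cb (m i)) X
          (fun i => cb_nonneg _) hX0) ?_
        exact Finset.prod_nonneg fun i _ => Nat.cast_nonneg _
    _ = ∑ i, (m i * N i * (cb (m i) * X i ^ ((d:ℝ) / m i))) *
          ∏ j ∈ Finset.univ.erase i, (N j : ℝ) := by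
        rw [Finset.mul_sum]
        refine Finset.sum_congr rfl fun i _ => ?_
        rw [← Finset.mul_prod_erase Finset.univ (fun j => (N j : ℝ)) (Finset.mem_univ i)]
        ring
    _ ≤ _ := by
        refine Finset.sum_le_sum fun i _ => ?_
        refine mul_le_mul_of_nonneg_right (hB i).2 ?_
        exact Finset.prod_nonneg fun j _ => Nat.cast_nonneg _

end Pool.Agent.TH233.LTP
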